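import Mathlib

set_option autoImplicit false

/-!
Abstract data of the covering surface used for the counterexample to MP_9ef1f5_an.

`W k` are open subsets of the unit disc containing the disc of radius `1/2`; over `W k` the surface
contains the double cover `w ^ 2 = P k z` with the zeros of `P k` removed; for `j ≠ k` the function
`P j` has no zero on `W k` and has there the holomorphic square root `s j`.
-/

namespace Pool.Agent.H27

/-- The data of the surface (see the file header). -/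
structure CoverData where
  W : ℕ → Set ℂ
  P : ℕ → ℂ → ℂ
  s : ℕ → ℂ → ℂ
  isOpen_W : ∀ k, IsOpen (W k)
  W_sub : ∀ k, W k ⊆ Metric.ball 0 1
  D_sub : ∀ k, Metric.ball 0 (1 / 2) ⊆ W k
  P_diff : ∀ j k, DifferentiableOn ℂ (P j) (W k)
  s_diff : ∀ j k, j ≠ k → DifferentiableOn ℂ (s j) (W k)
  s_sq : ∀ j k, j ≠ k → ∀ z ∈ W k, s j z ^ 2 = P j z
  P_ne : ∀ j k, j ≠ k → ∀ z ∈ W k, P j z ≠ 0
  P_bdd : ∀ j k, ∀ z ∈ W k, ‖P j z‖ ≤ 2
  conn : ∀ k, IsPreconnected (W k ∩ {z | P k z ≠ 0})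
  nosqrt : ∀ k, ¬ ∃ σ : ℂ → ℂ, ContinuousOn σ (W k ∩ {z | P k z ≠ 0}) ∧
    ∀ z ∈ W k ∩ {z | P k z ≠ 0}, σ z ^ 2 = P k z
  est : ∀ k, ∀ B : ℂ → ℂ, DifferentiableOn ℂ B (W k ∩ {z | P k z ≠ 0}) → ∀ C : ℝ,
    (∀ z ∈ W k ∩ {z | P k z ≠ 0}, ‖B z‖ * Real.sqrt ‖P k z‖ ≤ C) →
      ‖B 0‖ * Real.sqrt ‖P k 0‖ ≤ C * (1 / 2) ^ k

end Pool.Agent.H27
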