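import Mathlib
import Pool.Agent.Lib.MP_9ef1f5_an_helper27.CoverData

set_option autoImplicit false

/-!
The surface attached to `CoverData`: points, local sections, topology, charts.
-/

namespace Pool.Agent.H27

open Set Filter Topology
open scoped Manifold ContDiff

/-- The point condition: `(z, w)` lies over `W k` away from the zeros of `P k`, with `w k` a square
root of `P k z` and with all other coordinates given by the functions `s j`. -/
def IsPt (D : CoverData) (z : ℂ) (w : ℕ → ℂ) (k : ℕ) : Prop :=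
  z ∈ D.W k ∧ D.P k z ≠ 0 ∧ w k ^ 2 = D.P k z ∧ ∀ j, j ≠ k → w j = D.s j z

/-- The surface. -/
@[ext]
structure Surf (D : CoverData) : Type where
  z : ℂ
  w : ℕ → ℂ
  mem : ∃ k, IsPt D z w k

variable {D : CoverData}

lemma IsPt.sq {z : ℂ} {w : ℕ → ℂ} {k : ℕ} (h : IsPt D z w k) (i : ℕ) : w i ^ 2 = D.P i z := by
  by_cases hi : i = k
  · rw [hi]; exact h.2.2.1
  · rw [h.2.2.2 i hi]; exact D.s_sq i k hi z h.1

lemma IsPt.ne {z : ℂ} {w : ℕ → ℂ} {k : ℕ} (h : IsPt D z w k) (i : ℕ) : D.P i z ≠ 0 := by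
  by_cases hi : i = k
  · rw [hi]; exact h.2.1
  · exact D.P_ne i k hi z h.1

lemma IsPt.wne {z : ℂ} {w : ℕ → ℂ} {k : ℕ} (h : IsPt D z w k) (i : ℕ) : w i ≠ 0 := by
  intro h0
  have := h.sq i
  rw [h0] at this
  exact h.ne i (by rw [← this]; simp)

lemma IsPt.diffAt {z : ℂ} {w : ℕ → ℂ} {k : ℕ} (h : IsPt D z w k) (i : ℕ) :
    DifferentiableAt ℂ (D.P i) z :=
  (D.P_diff i k).differentiableAt ((D.isOpen_W k).mem_nhds h.1)

lemma base_isPt {z : ℂ} (hz : z ∈ Metric.ball (0 : ℂ) (1 / 2)) (k : ℕ) :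
    IsPt D z (fun i => D.s i z) k :=
  ⟨D.D_sub k hz, D.P_ne k (k + 1) (by omega) z (D.D_sub (k + 1) hz),
    D.s_sq k (k + 1) (by omega) z (D.D_sub (k + 1) hz), fun _ _ => rfl⟩

variable (D) in
/-- The base point. -/
noncomputable def bpt : Surf D := ⟨0, fun i => D.s i 0, ⟨0, base_isPt (by simp) 0⟩⟩

variable (D) in
/-- A local section of the projection to the `z` coordinate. -/
structure Sec where
  U : Set ℂ
  isOpen_U : IsOpen U
  σ : ℂ → ℕ → ℂ
  mem : ∀ z ∈ U, ∃ k, IsPt D z (σ z) k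
  cont : ∀ i, ContinuousOn (fun z => σ z i) U

open Classical in
/-- The section as a total function. -/
noncomputable def Sec.inv (S : Sec D) (z : ℂ) : Surf D :=
  if h : z ∈ S.U then ⟨z, S.σ z, S.mem z h⟩ else bpt D

lemma Sec.inv_of_mem (S : Sec D) {z : ℂ} (h : z ∈ S.U) : S.inv z = ⟨z, S.σ z, S.mem z h⟩ := by
  unfold Sec.inv
  rw [dif_pos h]

/-- The partial equivalence of a section. -/
noncomputable def Sec.pe (S : Sec D) : PartialEquiv (Surf D) ℂ where
  toFun x := x.z
  invFun := S.inv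
  source := {x | x.z ∈ S.U ∧ x.w = S.σ x.z}
  target := S.U
  map_source' := fun _ hx => hx.1
  map_target' := fun z hz => by
    rw [S.inv_of_mem hz]
    exact ⟨hz, rfl⟩
  left_inv' := fun x hx => by
    rw [S.inv_of_mem hx.1]
    exact Surf.ext rfl hx.2.symm
  right_inv' := fun z hz => by
    rw [S.inv_of_mem hz]

lemma Sec.trans_source (S S' : Sec D) :
    (S.pe.symm.trans S'.pe).source = {z | z ∈ S.U ∧ z ∈ S'.U ∧ S.σ z = S'.σ z} := by
  rw [PartialEquiv.trans_source]
  ext z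
  constructor
  · rintro ⟨h1, h2⟩
    have h1' : z ∈ S.U := h1
    have h2' : S.inv z ∈ S'.pe.source := h2
    rw [S.inv_of_mem h1'] at h2'
    exact ⟨h1', h2'.1, h2'.2⟩
  · rintro ⟨h1, h2, h3⟩
    refine ⟨h1, ?_⟩
    change S.inv z ∈ S'.pe.source
    rw [S.inv_of_mem h1]
    exact ⟨h2, h3⟩

lemma Sec.agree_open (S S' : Sec D) : IsOpen {z | z ∈ S.U ∧ z ∈ S'.U ∧ S.σ z = S'.σ z} := by
  rw [Metric.isOpen_iff]
  rintro z0 ⟨h1, h2, h3⟩
  obtain ⟨ε, hε, hball⟩ := Metric.isOpen_iff.1 (S.isOpen_U.inter S'.isOpen_U) z0 ⟨h1, h2⟩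
  refine ⟨ε, hε, fun z hz => ⟨(hball hz).1, (hball hz).2, ?_⟩⟩
  funext i
  have hpre : IsPreconnected (Metric.ball z0 ε) := (convex_ball z0 ε).isPreconnected
  refine IsPreconnected.eq_of_sq_eq (f := fun z => S.σ z i) (g := fun z => S'.σ z i) hpre
    ((S.cont i).mono fun y hy => (hball hy).1) ((S'.cont i).mono fun y hy => (hball hy).2)
    ?_ ?_ (Metric.mem_ball_self hε) (congrFun h3 i) hz
  · intro y hy
    obtain ⟨k, hk⟩ := S.mem y (hball hy).1
    obtain ⟨k', hk'⟩ := S'.mem y (hball hy).2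
    simp only [Pi.pow_apply]
    rw [hk.sq i, hk'.sq i]
  · intro y hy
    obtain ⟨k', hk'⟩ := S'.mem y (hball hy).2
    exact hk'.wne i

variable (D) in
/-- The local square root. -/
noncomputable def rt (k : ℕ) (z0 r z : ℂ) : ℂ := r * (D.P k z / D.P k z0) ^ (((2 : ℕ) : ℂ)⁻¹)

lemma rt_sq {k : ℕ} {z0 r : ℂ} (hr : r ^ 2 = D.P k z0) (hP : D.P k z0 ≠ 0) (z : ℂ) :
    rt D k z0 r z ^ 2 = D.P k z := by
  unfold rt
  rw [mul_pow, Complex.cpow_nat_inv_pow _ (by norm_num), hr]
  field_simp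

lemma rt_self {k : ℕ} {z0 r : ℂ} (hP : D.P k z0 ≠ 0) : rt D k z0 r z0 = r := by
  unfold rt
  rw [div_self hP, Complex.one_cpow, mul_one]

lemma rt_neg {k : ℕ} {z0 r : ℂ} (z : ℂ) : rt D k z0 (-r) z = - rt D k z0 r z := by
  unfold rt; ring

variable (D) in
/-- Domain of the local square root. -/
def dom (k : ℕ) (z0 : ℂ) : Set ℂ := D.W k ∩ (fun z => D.P k z / D.P k z0) ⁻¹' Complex.slitPlane

lemma isOpen_dom (k : ℕ) (z0 : ℂ) : IsOpen (dom D k z0) := by
  refine ContinuousOn.isOpen_inter_preimage ?_ (D.isOpen_W k) Complex.isOpen_slitPlane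
  exact (D.P_diff k k).continuousOn.div_const _

lemma self_mem_dom {k : ℕ} {z0 : ℂ} (h0 : z0 ∈ D.W k) (hP : D.P k z0 ≠ 0) : z0 ∈ dom D k z0 := by
  refine ⟨h0, ?_⟩
  simp only [mem_preimage, div_self hP]
  exact Complex.one_mem_slitPlane

lemma dom_ne {k : ℕ} {z0 z : ℂ} (hz : z ∈ dom D k z0) : D.P k z ≠ 0 := by
  intro h
  have := hz.2
  simp only [mem_preimage, h, zero_div] at this
  exact Complex.slitPlane_ne_zero this rfl

lemma rt_diff (k : ℕ) (z0 r : ℂ) : DifferentiableOn ℂ (rt D k z0 r) (dom D k z0) := by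
  unfold rt
  intro z hz
  have h1 : DifferentiableAt ℂ (D.P k) z :=
    (D.P_diff k k).differentiableAt ((D.isOpen_W k).mem_nhds hz.1)
  refine DifferentiableAt.differentiableWithinAt ?_
  refine DifferentiableAt.const_mul ?_ _
  exact (h1.div_const _).cpow_const hz.2

/-- The local section over `W k` with the given value of `w k`. -/
noncomputable def locSec (k : ℕ) (z0 r : ℂ) (hP : D.P k z0 ≠ 0) (hr : r ^ 2 = D.P k z0) :
    Sec D where
  U := dom D k z0
  isOpen_U := isOpen_dom k z0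
  σ z i := if i = k then rt D k z0 r z else D.s i z
  mem := fun z hz => ⟨k, hz.1, dom_ne hz, by simp [rt_sq hr hP], fun j hj => by simp [hj]⟩
  cont := fun i => by
    by_cases hi : i = k
    · simp only [hi, if_true]
      exact (rt_diff k z0 r).continuousOn
    · simp only [hi, if_false]
      exact (D.s_diff i k hi).continuousOn.mono inter_subset_left

/-- A section through a given point. -/
noncomputable def Surf.sec (x : Surf D) : Sec D :=
  locSec (Classical.choose x.mem) x.z (x.w (Classical.choose x.mem))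
    ((Classical.choose_spec x.mem).2.1) ((Classical.choose_spec x.mem).2.2.1)

lemma Surf.mem_sec (x : Surf D) : x ∈ x.sec.pe.source := by
  obtain h := Classical.choose_spec x.mem
  refine ⟨self_mem_dom h.1 h.2.1, ?_⟩
  funext i
  change x.w i = if i = Classical.choose x.mem then rt D _ x.z _ x.z else D.s i x.z
  by_cases hi : i = Classical.choose x.mem
  · rw [if_pos hi, rt_self h.2.1, ← hi]
  · rw [if_neg hi]
    exact h.2.2.2 i hi

variable (D) in
/-- The charted space core of the surface. -/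
noncomputable def core : ChartedSpaceCore ℂ (Surf D) where
  atlas := {e | ∃ S : Sec D, e = S.pe}
  chartAt x := x.sec.pe
  mem_chart_source x := x.mem_sec
  chart_mem_atlas x := ⟨_, rfl⟩
  open_source := by
    rintro e e' ⟨S, rfl⟩ ⟨S', rfl⟩
    rw [Sec.trans_source]
    exact S.agree_open S'
  continuousOn_toFun := by
    rintro e e' ⟨S, rfl⟩ ⟨S', rfl⟩
    rw [Sec.trans_source]
    refine continuousOn_id.congr ?_
    rintro z ⟨h1, h2, h3⟩
    change (S.inv z).z = z
    rw [S.inv_of_mem h1]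

noncomputable instance : TopologicalSpace (Surf D) := (core D).toTopologicalSpace

noncomputable instance : ChartedSpace ℂ (Surf D) := (core D).toChartedSpace

/-- The chart of a section. -/
noncomputable def Sec.chart (S : Sec D) : OpenPartialHomeomorph (Surf D) ℂ :=
  (core D).openPartialHomeomorph S.pe ⟨S, rfl⟩

lemma Sec.chart_mem (S : Sec D) : S.chart ∈ atlas ℂ (Surf D) := by
  change S.chart ∈ ⋃ (e : PartialEquiv (Surf D) ℂ) (he : e ∈ (core D).atlas),
    {(core D).openPartialHomeomorph e he}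
  simp only [mem_iUnion, mem_singleton_iff]
  exact ⟨S.pe, ⟨S, rfl⟩, rfl⟩

lemma exists_sec_of_mem_atlas {e : OpenPartialHomeomorph (Surf D) ℂ}
    (he : e ∈ atlas ℂ (Surf D)) : ∃ S : Sec D, e = S.chart := by
  change e ∈ ⋃ (e : PartialEquiv (Surf D) ℂ) (he : e ∈ (core D).atlas),
    {(core D).openPartialHomeomorph e he} at he
  simp only [mem_iUnion, mem_singleton_iff] at he
  obtain ⟨_, ⟨S, rfl⟩, h⟩ := he
  exact ⟨S, h⟩

lemma Sec.chart_symm (S : Sec D) (z : ℂ) : S.chart.symm z = S.inv z := rfl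
lemma Sec.chart_apply (S : Sec D) (x : Surf D) : S.chart x = x.z := rfl
lemma Sec.chart_target (S : Sec D) : S.chart.target = S.U := rfl
lemma Sec.chart_source (S : Sec D) : S.chart.source = S.pe.source := rfl

lemma Sec.continuousOn_inv (S : Sec D) : ContinuousOn S.inv S.U := S.chart.continuousOn_symm

instance : IsManifold 𝓘(ℂ) ⊤ (Surf D) := by
  refine isManifold_of_contDiffOn 𝓘(ℂ) ⊤ (Surf D) ?_
  intro e e' he he'
  obtain ⟨S, rfl⟩ := exists_sec_of_mem_atlas he
  obtain ⟨S', rfl⟩ := exists_sec_of_mem_atlas he'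
  refine contDiffOn_id.congr ?_
  intro z hz
  simp only [modelWithCornersSelf_coe, modelWithCornersSelf_coe_symm, Function.comp_apply, id_eq,
    OpenPartialHomeomorph.coe_trans, Sec.chart_symm, Sec.chart_apply]
  have h1 : z ∈ S.U := by
    have := hz.1
    simp only [modelWithCornersSelf_coe_symm, preimage_id_eq, id_eq,
      OpenPartialHomeomorph.trans_source, OpenPartialHomeomorph.symm_source] at this
    exact this.1
  rw [S.inv_of_mem h1]

end Pool.Agent.H27
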