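import Mathlib
import Pool.Agent.Lib.MP_9ef1f5_an_helper27.Surface

set_option autoImplicit false

/-!
Continuity and holomorphy on the surface, Hausdorff property, connectedness.
-/

namespace Pool.Agent.H27

open Set Filter Topology
open scoped Manifold ContDiff

variable {D : CoverData}

lemma Surf.mem_U (x : Surf D) : x.z ∈ x.sec.U := x.mem_sec.1

lemma Surf.inv_z (x : Surf D) : x.sec.inv x.z = x := x.sec.pe.left_inv x.mem_sec

/-- Continuity criterion. -/
lemma continuousAt_of_sec {Y : Type*} [TopologicalSpace Y] {g : Surf D → Y} {S : Sec D}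
    {x : Surf D} (hx : x ∈ S.pe.source) (h : ContinuousAt (fun z => g (S.inv z)) x.z) :
    ContinuousAt g x := by
  have h1 : ContinuousAt (fun y : Surf D => S.chart y) x := S.chart.continuousAt hx
  have h2 : ContinuousAt (fun y : Surf D => g (S.inv (S.chart y))) x :=
    ContinuousAt.comp (g := fun z => g (S.inv z)) (f := fun y : Surf D => S.chart y) h h1
  refine h2.congr ?_
  filter_upwards [S.chart.open_source.mem_nhds hx] with y hy
  exact congrArg g (S.chart.left_inv hy)

lemma continuous_of_sec {Y : Type*} [TopologicalSpace Y] {g : Surf D → Y}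
    (h : ∀ S : Sec D, ContinuousOn (fun z => g (S.inv z)) S.U) : Continuous g := by
  rw [continuous_iff_continuousAt]
  intro x
  exact continuousAt_of_sec x.mem_sec ((h x.sec).continuousAt (x.sec.isOpen_U.mem_nhds x.mem_U))

lemma continuous_z : Continuous (fun x : Surf D => x.z) := by
  refine continuous_of_sec fun S => ?_
  refine continuousOn_id.congr fun z hz => ?_
  simp only [S.inv_of_mem hz, id]

lemma continuous_w (i : ℕ) : Continuous (fun x : Surf D => x.w i) := by
  refine continuous_of_sec fun S => ?_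
  refine (S.cont i).congr fun z hz => ?_
  simp only [S.inv_of_mem hz]

instance : T2Space (Surf D) := by
  refine ⟨fun x y hxy => ?_⟩
  by_cases hz : x.z = y.z
  · have hw : x.w ≠ y.w := fun h => hxy (Surf.ext hz h)
    obtain ⟨i, hi⟩ := Function.ne_iff.1 hw
    obtain ⟨u, v, hu, hv, hxu, hyv, huv⟩ := t2_separation hi
    exact ⟨_, _, hu.preimage (continuous_w i), hv.preimage (continuous_w i), hxu, hyv,
      huv.preimage _⟩
  · obtain ⟨u, v, hu, hv, hxu, hyv, huv⟩ := t2_separation hz
    exact ⟨_, _, hu.preimage continuous_z, hv.preimage continuous_z, hxu, hyv, huv.preimage _⟩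

/-- Holomorphy criterion. -/
lemma mdiff_iff {f : Surf D → ℂ} : MDifferentiable 𝓘(ℂ) 𝓘(ℂ) f ↔
    ∀ S : Sec D, DifferentiableOn ℂ (fun z => f (S.inv z)) S.U := by
  constructor
  · intro hf S
    have h1 : MDifferentiableOn 𝓘(ℂ) 𝓘(ℂ) S.chart.symm S.chart.target :=
      mdifferentiableOn_atlas_symm (I := 𝓘(ℂ)) S.chart_mem
    have h2 : MDifferentiableOn 𝓘(ℂ) 𝓘(ℂ) (f ∘ S.chart.symm) S.chart.target :=
      hf.comp_mdifferentiableOn h1
    exact mdifferentiableOn_iff_differentiableOn.1 h2
  · intro h x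
    have h1 : MDifferentiableAt 𝓘(ℂ) 𝓘(ℂ) x.sec.chart x :=
      mdifferentiableAt_atlas (I := 𝓘(ℂ)) x.sec.chart_mem x.mem_sec
    have h2 : MDifferentiableAt 𝓘(ℂ) 𝓘(ℂ) (fun z => f (x.sec.inv z)) (x.sec.chart x) :=
      mdifferentiableAt_iff_differentiableAt.2
        ((h x.sec).differentiableAt (x.sec.isOpen_U.mem_nhds x.mem_U))
    have h3 : MDifferentiableAt 𝓘(ℂ) 𝓘(ℂ) (fun y => f (x.sec.inv (x.sec.chart y))) x :=
      h2.comp x h1
    refine h3.congr_of_eventuallyEq ?_
    filter_upwards [x.sec.chart.open_source.mem_nhds x.mem_sec] with y hy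
    exact (congrArg f (x.sec.chart.left_inv hy)).symm

/-- The point over `z ∈ W k` with `w k = r`. -/
noncomputable def pt (k : ℕ) (z r : ℂ) (hz : z ∈ D.W k) (hP : D.P k z ≠ 0) (hr : r ^ 2 = D.P k z) :
    Surf D :=
  ⟨z, fun i => if i = k then r else D.s i z, ⟨k, hz, hP, by simp [hr], fun j hj => by simp [hj]⟩⟩

lemma locSec_inv {k : ℕ} {z0 r : ℂ} (hP : D.P k z0 ≠ 0) (hr : r ^ 2 = D.P k z0) {z : ℂ}
    (hz : z ∈ dom D k z0) : (locSec k z0 r hP hr).inv z =
      pt k z (rt D k z0 r z) hz.1 (dom_ne hz) (rt_sq hr hP z) :=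
  (locSec k z0 r hP hr).inv_of_mem hz

lemma pt_congr {k : ℕ} {z r r' : ℂ} {hz : z ∈ D.W k} {hP : D.P k z ≠ 0} {hr : r ^ 2 = D.P k z}
    {hr' : r' ^ 2 = D.P k z} (h : r = r') : pt k z r hz hP hr = pt k z r' hz hP hr' := by
  subst h; rfl

lemma eq_pt (x : Surf D) {k : ℕ} (h : IsPt D x.z x.w k) :
    x = pt k x.z (x.w k) h.1 h.2.1 h.2.2.1 := by
  refine Surf.ext rfl ?_
  funext i
  change x.w i = if i = k then x.w k else D.s i x.z
  by_cases hi : i = k
  · rw [if_pos hi, hi]
  · rw [if_neg hi]; exact h.2.2.2 i hi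

/-- The principal square root of `P k z`. -/
noncomputable def sq (D : CoverData) (k : ℕ) (z : ℂ) : ℂ := (D.P k z) ^ (((2 : ℕ) : ℂ)⁻¹)

lemma sq_sq (k : ℕ) (z : ℂ) : sq D k z ^ 2 = D.P k z := Complex.cpow_nat_inv_pow _ (by norm_num)

lemma neg_sq_eq {k : ℕ} {z r : ℂ} (hr : r ^ 2 = D.P k z) : (-r) ^ 2 = D.P k z := by
  rw [neg_pow_two, hr]

lemma eq_or_neg {k : ℕ} {z r r' : ℂ} (hr : r ^ 2 = D.P k z) (hr' : r' ^ 2 = D.P k z) :
    r = r' ∨ r = -r' := sq_eq_sq_iff_eq_or_eq_neg.1 (hr.trans hr'.symm)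

lemma sqrt_ne {k : ℕ} {z r : ℂ} (hP : D.P k z ≠ 0) (hr : r ^ 2 = D.P k z) : r ≠ 0 := by
  rintro rfl
  exact hP (by rw [← hr]; simp)

/-- `W k` without the zeros of `P k`. -/
def Om (D : CoverData) (k : ℕ) : Set ℂ := D.W k ∩ {z | D.P k z ≠ 0}

lemma isOpen_Om (k : ℕ) : IsOpen (Om D k) :=
  ContinuousOn.isOpen_inter_preimage (D.P_diff k k).continuousOn (D.isOpen_W k)
    (isOpen_ne (x := (0 : ℂ)))

lemma dom_subset_Om (k : ℕ) (z0 : ℂ) : dom D k z0 ⊆ Om D k := fun _ hz => ⟨hz.1, dom_ne hz⟩

lemma dom_mem_nhds {k : ℕ} {z0 : ℂ} (h : z0 ∈ Om D k) : dom D k z0 ∈ 𝓝 z0 :=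
  (isOpen_dom k z0).mem_nhds (self_mem_dom h.1 h.2)

/-- The point over `z ∈ Om k` with principal square root. -/
noncomputable def pp (k : ℕ) (z : ℂ) (h : z ∈ Om D k) : Surf D :=
  pt k z (sq D k z) h.1 h.2 (sq_sq k z)

/-- The point over `z ∈ Om k` with minus the principal square root. -/
noncomputable def pm (k : ℕ) (z : ℂ) (h : z ∈ Om D k) : Surf D :=
  pt k z (-sq D k z) h.1 h.2 (neg_sq_eq (sq_sq k z))

variable (D) in
/-- The base section. -/
noncomputable def bsec : Sec D where
  U := Metric.ball 0 (1 / 2)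
  isOpen_U := Metric.isOpen_ball
  σ z i := D.s i z
  mem := fun _ hz => ⟨0, base_isPt hz 0⟩
  cont := fun i => (D.s_diff i (i + 1) (by omega)).continuousOn.mono (D.D_sub (i + 1))

lemma Om_base {z : ℂ} (hz : z ∈ Metric.ball (0 : ℂ) (1 / 2)) (k : ℕ) : z ∈ Om D k :=
  ⟨(base_isPt hz k).1, (base_isPt hz k).2.1⟩

lemma bsec_inv {z : ℂ} (hz : z ∈ Metric.ball (0 : ℂ) (1 / 2)) (k : ℕ) :
    (bsec D).inv z = pt k z (D.s k z) (base_isPt hz k).1 (base_isPt hz k).2.1
      (base_isPt hz k).2.2.1 := by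
  rw [(bsec D).inv_of_mem hz]
  refine Surf.ext rfl ?_
  funext i
  change D.s i z = if i = k then D.s k z else D.s i z
  by_cases hi : i = k
  · rw [if_pos hi, hi]
  · rw [if_neg hi]

/-- A continuous `Bool` valued function composed with a local section is locally constant. -/
lemma eventually_eq_of_sec {f : Surf D → Bool} (hf : Continuous f) {k : ℕ} {z0 r : ℂ}
    (h0 : z0 ∈ Om D k) (hr : r ^ 2 = D.P k z0) :
    ∀ᶠ z in 𝓝 z0, ∀ hz : z ∈ dom D k z0,
      f (pt k z (rt D k z0 r z) hz.1 (dom_ne hz) (rt_sq hr h0.2 z)) = f (pt k z0 r h0.1 h0.2 hr) := by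
  have h1 : ContinuousAt (fun z => f ((locSec k z0 r h0.2 hr).inv z)) z0 :=
    hf.continuousAt.comp ((locSec k z0 r h0.2 hr).continuousOn_inv.continuousAt (dom_mem_nhds h0))
  have h2 : ∀ᶠ z in 𝓝 z0, f ((locSec k z0 r h0.2 hr).inv z)
      = f ((locSec k z0 r h0.2 hr).inv z0) := by
    have : {f ((locSec k z0 r h0.2 hr).inv z0)} ∈ 𝓝 (f ((locSec k z0 r h0.2 hr).inv z0)) := by
      simp
    exact h1 this
  filter_upwards [h2] with z hz hzd
  rw [locSec_inv _ _ hzd, locSec_inv _ _ (self_mem_dom h0.1 h0.2)] at hz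
  rw [hz]
  exact congrArg f (pt_congr (rt_self h0.2))

/-- Continuous functions with two values are constant. -/
lemma bool_const {f : Surf D → Bool} (hf : Continuous f) (x : Surf D) :
    f x = f ((bsec D).inv 0) := by
  classical
  obtain ⟨k, hk⟩ := x.mem
  have h00 : (0 : ℂ) ∈ Metric.ball (0 : ℂ) (1 / 2) := by simp
  -- the comparison of the two sheets
  let g : ℂ → Bool := fun z => if h : z ∈ Om D k then xor (f (pp k z h)) (f (pm k z h)) else false
  have hpair : ∀ z0 (h0 : z0 ∈ Om D k) (r : ℂ) (hr : r ^ 2 = D.P k z0),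
      xor (f (pt k z0 r h0.1 h0.2 hr)) (f (pt k z0 (-r) h0.1 h0.2 (neg_sq_eq hr))) = g z0 := by
    intro z0 h0 r hr
    simp only [g, dif_pos h0]
    rcases eq_or_neg hr (sq_sq k z0) with h | h
    · subst h; rfl
    · subst h
      rw [Bool.xor_comm]
      congr 1
      exact congrArg f (pt_congr (neg_neg _))
  have hgloc : ContinuousOn g (Om D k) := by
    intro z0 h0
    refine ContinuousAt.continuousWithinAt ?_
    have h1 := eventually_eq_of_sec hf h0 (sq_sq (D := D) k z0)
    have h2 := eventually_eq_of_sec hf h0 (neg_sq_eq (sq_sq (D := D) k z0))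
    have h3 : ∀ᶠ z in 𝓝 z0, g z = g z0 := by
      filter_upwards [h1, h2, dom_mem_nhds h0] with z hz1 hz2 hzd
      rw [← hpair z (dom_subset_Om k z0 hzd) (rt D k z0 (sq D k z0) z)
        (rt_sq (sq_sq k z0) h0.2 z), ← hpair z0 h0 (sq D k z0) (sq_sq k z0), hz1 hzd, ← hz2 hzd]
      congr 1
      exact congrArg f (pt_congr (rt_neg z).symm)
    have h4 : g =ᶠ[𝓝 z0] fun _ => g z0 := h3
    exact continuousAt_const.congr h4.symm
  have hOm0 : (0 : ℂ) ∈ Om D k := Om_base h00 k
  have hOmpre : IsPreconnected (Om D k) := D.conn k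
  have hgconst : ∀ z ∈ Om D k, g z = g 0 := fun z hz => hOmpre.constant hgloc hz hOm0
  -- the sheets are not separated
  have hg0 : g 0 = false := by
    by_contra hcon
    have hg1 : ∀ z ∈ Om D k, g z = true := fun z hz => by
      rw [hgconst z hz]; simpa using hcon
    refine D.nosqrt k ⟨fun z => if h : z ∈ Om D k then
      (if f (pp k z h) = true then sq D k z else -sq D k z) else 0, ?_, ?_⟩
    · intro z0 h0
      change z0 ∈ Om D k at h0
      refine ContinuousAt.continuousWithinAt ?_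
      -- the value at z0
      set r : ℂ := if f (pp k z0 h0) = true then sq D k z0 else -sq D k z0 with hr
      have hr2 : r ^ 2 = D.P k z0 := by
        rw [hr]; split_ifs
        · exact sq_sq k z0
        · exact neg_sq_eq (sq_sq k z0)
      have hfr : ∀ z (hz : z ∈ Om D k), ∀ r' : ℂ, ∀ hr' : r' ^ 2 = D.P k z,
          f (pt k z r' hz.1 hz.2 hr') = true →
          (if f (pp k z hz) = true then sq D k z else -sq D k z) = r' := by
        intro z hz r' hr' hf'
        rcases eq_or_neg hr' (sq_sq k z) with h | h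
        · subst h
          have hf2 : f (pp k z hz) = true := hf'
          rw [if_pos hf2]
        · subst h
          have h5 := hpair z hz _ (sq_sq k z)
          rw [hg1 z hz] at h5
          rw [hf'] at h5
          have h6 : f (pp k z hz) = false := by
            simpa [pp] using h5
          rw [h6]
          simp
      have hfr0 : f (pt k z0 r h0.1 h0.2 hr2) = true := by
        by_cases h5 : f (pp k z0 h0) = true
        · have : r = sq D k z0 := by rw [hr, if_pos h5]
          rw [← h5]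
          exact congrArg f (pt_congr this)
        · have h6 : r = -sq D k z0 := by rw [hr, if_neg h5]
          have h7 := hpair z0 h0 _ (sq_sq k z0)
          rw [hg1 z0 h0] at h7
          have h8 : f (pp k z0 h0) = false := by simpa using h5
          have h9 : f (pt k z0 (-sq D k z0) h0.1 h0.2 (neg_sq_eq (sq_sq k z0))) = true := by
            change xor (f (pp k z0 h0)) _ = true at h7
            rw [h8] at h7
            simpa using h7
          rw [← h9]
          exact congrArg f (pt_congr h6)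
      have h1 := eventually_eq_of_sec hf h0 hr2
      have hcontrt : ContinuousAt (rt D k z0 r) z0 :=
        ((rt_diff k z0 r).continuousOn.continuousAt (dom_mem_nhds h0))
      refine hcontrt.congr ?_
      filter_upwards [h1, dom_mem_nhds h0] with z hz1 hzd
      rw [dif_pos (dom_subset_Om k z0 hzd)]
      refine (hfr z (dom_subset_Om k z0 hzd) _ (rt_sq hr2 h0.2 z) ?_).symm
      rw [hz1 hzd, hfr0]
    · intro z hz
      change z ∈ Om D k at hz
      simp only [dif_pos hz]
      split_ifs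
      · exact sq_sq k z
      · exact neg_sq_eq (sq_sq k z)
  have hsym : ∀ z (hz : z ∈ Om D k), ∀ r : ℂ, ∀ hr : r ^ 2 = D.P k z,
      f (pt k z r hz.1 hz.2 hr) = f (pp k z hz) := by
    intro z hz r hr
    rcases eq_or_neg hr (sq_sq k z) with h | h
    · subst h; rfl
    · subst h
      have h5 := hpair z hz _ (sq_sq k z)
      rw [hgconst z hz, hg0] at h5
      change xor (f (pp k z hz)) (f (pm k z hz)) = false at h5
      change f (pm k z hz) = _
      revert h5
      cases f (pp k z hz) <;> cases f (pm k z hz) <;> simp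
  let G : ℂ → Bool := fun z => if h : z ∈ Om D k then f (pp k z h) else false
  have hGloc : ContinuousOn G (Om D k) := by
    intro z0 h0
    refine ContinuousAt.continuousWithinAt ?_
    have h1 := eventually_eq_of_sec hf h0 (sq_sq (D := D) k z0)
    have h3 : ∀ᶠ z in 𝓝 z0, G z = G z0 := by
      filter_upwards [h1, dom_mem_nhds h0] with z hz1 hzd
      simp only [G, dif_pos (dom_subset_Om k z0 hzd), dif_pos h0]
      rw [← hsym z (dom_subset_Om k z0 hzd) _ (rt_sq (sq_sq k z0) h0.2 z), hz1 hzd]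
      rfl
    have h4 : G =ᶠ[𝓝 z0] fun _ => G z0 := h3
    exact continuousAt_const.congr h4.symm
  have hx : x.z ∈ Om D k := ⟨hk.1, hk.2.1⟩
  have hc := hOmpre.constant hGloc hx hOm0
  simp only [G, dif_pos hx, dif_pos hOm0] at hc
  rw [bsec_inv h00 k, hsym 0 hOm0, ← hc, ← hsym x.z hx (x.w k) hk.2.2.1]
  exact congrArg f (eq_pt x hk)

instance : Nonempty (Surf D) := ⟨bpt D⟩

instance : ConnectedSpace (Surf D) where
  toPreconnectedSpace := preconnectedSpace_of_forall_constant fun f hf x y => by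
    rw [bool_const hf x, bool_const hf y]
  toNonempty := inferInstance

end Pool.Agent.H27
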