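import Mathlib
import Pool.Agent.Lib.MP_9ef1f5_an_helper27.Surface2

set_option autoImplicit false

/-!
Bounded holomorphic functions on the surface: separation of points, and the estimate comparing the
values at the points over `0`.
-/

namespace Pool.Agent.H27

open Set Filter Topology
open scoped Manifold ContDiff

variable {D : CoverData}

/-- A continuous square root of a differentiable function is differentiable where it is nonzero. -/
lemma diff_of_sq {U : Set ℂ} (hU : IsOpen U) {σ P : ℂ → ℂ} (hσ : ContinuousOn σ U)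
    (hP : ∀ z ∈ U, DifferentiableAt ℂ P z) (hsq : ∀ z ∈ U, σ z ^ 2 = P z)
    (hne : ∀ z ∈ U, P z ≠ 0) : DifferentiableOn ℂ σ U := by
  intro z0 h0
  refine DifferentiableAt.differentiableWithinAt ?_
  have hσ0 : ContinuousAt σ z0 := hσ.continuousAt (hU.mem_nhds h0)
  have hP0 := hP z0 h0
  have hne0 := hne z0 h0
  have hs0 : σ z0 ≠ 0 := by
    intro h
    have := hsq z0 h0
    rw [h] at this
    exact hne0 (by rw [← this]; simp)
  let τ : ℂ → ℂ := fun z => σ z0 * (P z / P z0) ^ (((2 : ℕ) : ℂ)⁻¹)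
  have hτd : DifferentiableAt ℂ τ z0 := by
    refine DifferentiableAt.const_mul ?_ _
    refine (hP0.div_const _).cpow_const ?_
    rw [div_self hne0]
    exact Complex.one_mem_slitPlane
  have hτ0 : τ z0 = σ z0 := by
    simp only [τ]
    rw [div_self hne0, Complex.one_cpow, mul_one]
  have hτ2 : ∀ z, τ z ^ 2 = P z := by
    intro z
    simp only [τ]
    rw [mul_pow, Complex.cpow_nat_inv_pow _ (by norm_num), hsq z0 h0]
    field_simp
  refine hτd.congr_of_eventuallyEq ?_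
  -- `σ + τ` is nonzero near `z0`
  have hc : ContinuousAt (fun z => σ z + τ z) z0 := hσ0.add hτd.continuousAt
  have hne2 : σ z0 + τ z0 ≠ 0 := by
    rw [hτ0]
    intro h
    apply hs0
    have : (2 : ℂ) * σ z0 = 0 := by linear_combination h
    rcases mul_eq_zero.1 this with h2 | h2
    · norm_num at h2
    · exact h2
  filter_upwards [hc.eventually_ne hne2, hU.mem_nhds h0] with z hz hzU
  have h1 : (σ z - τ z) * (σ z + τ z) = 0 := by
    have h2 := hsq z hzU
    have h3 := hτ2 z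
    linear_combination h2 - h3
  rcases mul_eq_zero.1 h1 with h2 | h2
  · exact sub_eq_zero.1 h2
  · exact absurd h2 hz

lemma mdiff_z : MDifferentiable 𝓘(ℂ) 𝓘(ℂ) (fun x : Surf D => x.z) := by
  rw [mdiff_iff]
  intro S
  refine differentiableOn_id.congr fun z hz => ?_
  simp only [S.inv_of_mem hz, id]

lemma norm_z_le (x : Surf D) : ‖x.z‖ ≤ 1 := by
  obtain ⟨k, hk⟩ := x.mem
  have := D.W_sub k hk.1
  rw [Metric.mem_ball, dist_zero_right] at this
  exact this.le

lemma mdiff_w (i : ℕ) : MDifferentiable 𝓘(ℂ) 𝓘(ℂ) (fun x : Surf D => x.w i) := by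
  rw [mdiff_iff]
  intro S
  have h1 : DifferentiableOn ℂ (fun z => S.σ z i) S.U := by
    refine diff_of_sq (P := D.P i) S.isOpen_U (S.cont i) ?_ ?_ ?_
    · intro z hz
      obtain ⟨k, hk⟩ := S.mem z hz
      exact hk.diffAt i
    · intro z hz
      obtain ⟨k, hk⟩ := S.mem z hz
      exact hk.sq i
    · intro z hz
      obtain ⟨k, hk⟩ := S.mem z hz
      exact hk.ne i
  refine h1.congr fun z hz => ?_
  simp only [S.inv_of_mem hz]

lemma norm_w_le (i : ℕ) (x : Surf D) : ‖x.w i‖ ≤ 2 := by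
  obtain ⟨k, hk⟩ := x.mem
  have h1 := D.P_bdd i k x.z hk.1
  rw [← hk.sq i, norm_pow] at h1
  nlinarith [norm_nonneg (x.w i)]

/-- Bounded holomorphic functions separate the points. -/
lemma separates (x y : Surf D) (hxy : x ≠ y) : ∃ f : Surf D → ℂ, MDifferentiable 𝓘(ℂ) 𝓘(ℂ) f ∧
    (∃ C : ℝ, ∀ x, ‖f x‖ ≤ C) ∧ f x ≠ f y := by
  by_cases hz : x.z = y.z
  · have hw : x.w ≠ y.w := fun h => hxy (Surf.ext hz h)
    obtain ⟨i, hi⟩ := Function.ne_iff.1 hw
    exact ⟨_, mdiff_w i, ⟨2, norm_w_le i⟩, hi⟩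
  · exact ⟨_, mdiff_z, ⟨1, norm_z_le⟩, hz⟩

/-- The second point over `0` in the double cover of `W k`. -/
noncomputable def qk (D : CoverData) (k : ℕ) : Surf D :=
  pt k 0 (-D.s k 0) (base_isPt (by simp) k).1 (base_isPt (by simp) k).2.1
    (neg_sq_eq (base_isPt (D := D) (by simp) k).2.2.1)

/-- The main estimate. -/
lemma main_est {f : Surf D → ℂ} (hf : MDifferentiable 𝓘(ℂ) 𝓘(ℂ) f) {C : ℝ} (hC : ∀ x, ‖f x‖ ≤ C)
    (k : ℕ) : ‖f ((bsec D).inv 0) - f (qk D k)‖ ≤ 2 * C * (1 / 2) ^ k := by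
  classical
  rw [mdiff_iff] at hf
  let B : ℂ → ℂ := fun z => if h : z ∈ Om D k then (f (pp k z h) - f (pm k z h)) / (2 * sq D k z)
    else 0
  have hB : ∀ z (h : z ∈ Om D k) (r : ℂ) (hr : r ^ 2 = D.P k z),
      B z = (f (pt k z r h.1 h.2 hr) - f (pt k z (-r) h.1 h.2 (neg_sq_eq hr))) / (2 * r) := by
    intro z h r hr
    simp only [B, dif_pos h]
    rcases eq_or_neg hr (sq_sq k z) with h1 | h1
    · subst h1; rfl
    · subst h1
      have h2 : f (pt k z (- -sq D k z) h.1 h.2 (neg_sq_eq hr)) = f (pp k z h) :=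
        congrArg f (pt_congr (neg_neg _))
      rw [h2]
      change (f (pp k z h) - f (pm k z h)) / _ = (f (pm k z h) - f (pp k z h)) / _
      have h3 : sq D k z ≠ 0 := sqrt_ne h.2 (sq_sq k z)
      field_simp
      ring
  have hBd : DifferentiableOn ℂ B (Om D k) := by
    intro z0 h0
    refine DifferentiableAt.differentiableWithinAt ?_
    have hr := sq_sq (D := D) k z0
    have hr' := neg_sq_eq hr
    have h1 : DifferentiableAt ℂ (fun z => f ((locSec k z0 (sq D k z0) h0.2 hr).inv z)) z0 :=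
      (hf (locSec k z0 (sq D k z0) h0.2 hr)).differentiableAt (dom_mem_nhds h0)
    have h2 : DifferentiableAt ℂ (fun z => f ((locSec k z0 (-sq D k z0) h0.2 hr').inv z)) z0 :=
      (hf (locSec k z0 (-sq D k z0) h0.2 hr')).differentiableAt (dom_mem_nhds h0)
    have h3 : DifferentiableAt ℂ (rt D k z0 (sq D k z0)) z0 :=
      (rt_diff k z0 _).differentiableAt (dom_mem_nhds h0)
    have h4 : (2 : ℂ) * rt D k z0 (sq D k z0) z0 ≠ 0 := by
      rw [rt_self h0.2]
      exact mul_ne_zero two_ne_zero (sqrt_ne h0.2 hr)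
    refine ((h1.sub h2).div (h3.const_mul 2) h4).congr_of_eventuallyEq ?_
    filter_upwards [dom_mem_nhds h0] with z hz
    rw [hB z (dom_subset_Om k z0 hz) _ (rt_sq hr h0.2 z)]
    simp only [Pi.sub_apply, Pi.div_apply, locSec_inv _ _ hz]
    congr 3
    exact pt_congr (rt_neg z).symm
  have hBb : ∀ z ∈ Om D k, ‖B z‖ * Real.sqrt ‖D.P k z‖ ≤ C := by
    intro z h
    rw [hB z h _ (sq_sq k z), norm_div, norm_mul]
    have h1 : ‖D.P k z‖ = ‖sq D k z‖ ^ 2 := by rw [← norm_pow, sq_sq]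
    have h2 : 0 < ‖sq D k z‖ := norm_pos_iff.2 (sqrt_ne h.2 (sq_sq k z))
    rw [h1, Real.sqrt_sq (norm_nonneg _)]
    have h3 : ‖f (pt k z (sq D k z) h.1 h.2 (sq_sq k z)) -
        f (pt k z (-sq D k z) h.1 h.2 (neg_sq_eq (sq_sq k z)))‖ ≤ 2 * C := by
      refine (norm_sub_le _ _).trans ?_
      linarith [hC (pt k z (sq D k z) h.1 h.2 (sq_sq k z)),
        hC (pt k z (-sq D k z) h.1 h.2 (neg_sq_eq (sq_sq k z)))]
    have h4 : ‖(2 : ℂ)‖ = 2 := by simp
    rw [h4, div_mul_eq_mul_div, div_le_iff₀ (by positivity)]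
    nlinarith
  have h00 : (0 : ℂ) ∈ Om D k := Om_base (by simp) k
  have hest := D.est k B hBd C hBb
  have hr : (D.s k 0) ^ 2 = D.P k 0 := (base_isPt (D := D) (by simp) k).2.2.1
  rw [hB 0 h00 _ hr] at hest
  have h1 : ‖D.P k 0‖ = ‖D.s k 0‖ ^ 2 := by rw [← norm_pow, hr]
  have h2 : 0 < ‖D.s k 0‖ := norm_pos_iff.2 (sqrt_ne h00.2 hr)
  rw [h1, Real.sqrt_sq (norm_nonneg _), norm_div, norm_mul] at hest
  have h4 : ‖(2 : ℂ)‖ = 2 := by simp
  rw [h4] at hest
  have h5 : f ((bsec D).inv 0) = f (pt k 0 (D.s k 0) h00.1 h00.2 hr) := by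
    rw [bsec_inv (by simp) k]
  have h6 : f (qk D k) = f (pt k 0 (-D.s k 0) h00.1 h00.2 (neg_sq_eq hr)) := rfl
  rw [h5, h6]
  have h7 : ∀ x : ℝ, x / (2 * ‖D.s k 0‖) * ‖D.s k 0‖ = x / 2 := by
    intro x; field_simp
  rw [h7] at hest
  linarith

end Pool.Agent.H27
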