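import Mathlib
import Pool.Agent.Lib.MP_9ef1f5_an_helper27.Surface3

set_option autoImplicit false

/-!
The curve on the base sheet and the two complementary pieces.
-/

namespace Pool.Agent.H27

open Set Filter Topology Metric
open scoped Manifold ContDiff

variable {D : CoverData}

/-- The base section as a function. -/
noncomputable def bb (D : CoverData) (z : ℂ) : Surf D := (bsec D).inv z

lemma bb_of_mem {z : ℂ} (hz : z ∈ ball (0 : ℂ) (1 / 2)) : bb D z =
    ⟨z, fun i => D.s i z, ⟨0, base_isPt hz 0⟩⟩ := (bsec D).inv_of_mem hz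

lemma bb_z {z : ℂ} (hz : z ∈ ball (0 : ℂ) (1 / 2)) : (bb D z).z = z := by rw [bb_of_mem hz]

lemma bb_injOn : InjOn (bb D) (ball (0 : ℂ) (1 / 2)) := by
  intro x hx y hy h
  rw [← bb_z (D := D) hx, ← bb_z (D := D) hy, h]

lemma bb_continuousOn : ContinuousOn (bb D) (ball (0 : ℂ) (1 / 2)) := (bsec D).continuousOn_inv

lemma isOpen_bb_image {V : Set ℂ} (hV : IsOpen V) (hVs : V ⊆ ball (0 : ℂ) (1 / 2)) :
    IsOpen (bb D '' V) :=
  (bsec D).chart.isOpen_image_symm_of_subset_target hV hVs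

lemma ball_sub : ball (0 : ℂ) (1 / 3) ⊆ ball (0 : ℂ) (1 / 2) := ball_subset_ball (by norm_num)

lemma closedBall_sub : closedBall (0 : ℂ) (1 / 3) ⊆ ball (0 : ℂ) (1 / 2) :=
  closedBall_subset_ball (by norm_num)

lemma sphere_sub : sphere (0 : ℂ) (1 / 3) ⊆ ball (0 : ℂ) (1 / 2) :=
  sphere_subset_closedBall.trans closedBall_sub

/-- The outer piece. -/
def R2 (D : CoverData) : Set (Surf D) := (bb D '' closedBall (0 : ℂ) (1 / 3))ᶜ

/-- The inner piece. -/
def R1 (D : CoverData) : Set (Surf D) := bb D '' ball (0 : ℂ) (1 / 3)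

lemma isOpen_R2 : IsOpen (R2 D) := by
  have h : IsCompact (bb D '' closedBall (0 : ℂ) (1 / 3)) :=
    (isCompact_closedBall _ _).image_of_continuousOn (bb_continuousOn.mono closedBall_sub)
  exact h.isClosed.isOpen_compl

lemma isOpen_R1 : IsOpen (R1 D) := isOpen_bb_image isOpen_ball ball_sub

lemma isPreconnected_R1 : IsPreconnected (R1 D) :=
  ((convex_ball (0 : ℂ) (1 / 3)).isPreconnected).image _ (bb_continuousOn.mono ball_sub)

/-- The annulus. -/
def ann : Set ℂ := {z | 1 / 3 < ‖z‖ ∧ ‖z‖ < 1 / 2}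

lemma isPreconnected_ann : IsPreconnected ann := by
  have h1 : ann = (fun p : ℝ × ℝ => (p.1 : ℂ) * Complex.exp (p.2 * Complex.I)) ''
      (Ioo (1 / 3 : ℝ) (1 / 2) ×ˢ univ) := by
    ext z
    constructor
    · rintro ⟨h1, h2⟩
      exact ⟨(‖z‖, Complex.arg z), ⟨⟨h1, h2⟩, mem_univ _⟩, Complex.norm_mul_exp_arg_mul_I z⟩
    · rintro ⟨⟨r, θ⟩, ⟨⟨h1, h2⟩, _⟩, rfl⟩
      have h0 : (0 : ℝ) < r := by
        have : (0 : ℝ) < 1 / 3 := by norm_num
        exact this.trans h1
      have h3 : ‖(r : ℂ) * Complex.exp (θ * Complex.I)‖ = r := by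
        rw [norm_mul, Complex.norm_exp_ofReal_mul_I, mul_one, Complex.norm_real,
          Real.norm_eq_abs, abs_of_pos h0]
      change 1 / 3 < ‖(r : ℂ) * Complex.exp (θ * Complex.I)‖ ∧
        ‖(r : ℂ) * Complex.exp (θ * Complex.I)‖ < 1 / 2
      rw [h3]
      exact ⟨h1, h2⟩
  rw [h1]
  refine (isPreconnected_Ioo.prod isPreconnected_univ).image _ ?_
  fun_prop

lemma ann_sub : ann ⊆ ball (0 : ℂ) (1 / 2) := fun z hz => by
  rw [mem_ball, dist_zero_right]; exact hz.2

lemma bb_ann_sub : bb D '' ann ⊆ R2 D := by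
  rintro _ ⟨z, hz, rfl⟩ ⟨y, hy, hzy⟩
  have := bb_injOn (closedBall_sub hy) (ann_sub hz) hzy
  subst this
  rw [mem_closedBall, dist_zero_right] at hy
  exact absurd hz.1 (not_lt.2 hy)

lemma isPreconnected_R2 : IsPreconnected (R2 D) := by
  classical
  refine isPreconnected_of_forall_constant fun f hf x hx y hy => ?_
  have hy0 : ((5 / 12 : ℝ) : ℂ) ∈ ann := by
    change 1 / 3 < ‖((5 / 12 : ℝ) : ℂ)‖ ∧ ‖((5 / 12 : ℝ) : ℂ)‖ < 1 / 2
    rw [Complex.norm_real]; norm_num
  set c : Bool := f (bb D ((5 / 12 : ℝ) : ℂ)) with hc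
  have hcann : ∀ z ∈ ann, f (bb D z) = c := by
    intro z hz
    have h1 : ContinuousOn (fun z => f (bb D z)) ann :=
      hf.comp (bb_continuousOn.mono ann_sub) fun z hz => bb_ann_sub ⟨z, hz, rfl⟩
    exact isPreconnected_ann.constant h1 hz hy0
  let g : Surf D → Bool := fun x => if x ∈ bb D '' ball (0 : ℂ) (1 / 2) then c else f x
  have hgR2 : ∀ x ∈ R2 D, g x = f x := by
    intro x hx
    by_cases h : x ∈ bb D '' ball (0 : ℂ) (1 / 2)
    · simp only [g, if_pos h]
      obtain ⟨z, hz, rfl⟩ := h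
      refine (hcann z ⟨?_, ?_⟩).symm
      · by_contra hcon
        push Not at hcon
        exact hx ⟨z, by rw [mem_closedBall, dist_zero_right]; exact hcon, rfl⟩
      · rwa [mem_ball, dist_zero_right] at hz
    · simp only [g, if_neg h]
  have hg : Continuous g := by
    rw [continuous_iff_continuousAt]
    intro x
    by_cases hx : x ∈ R2 D
    · have h1 : ContinuousAt f x := hf.continuousAt (isOpen_R2.mem_nhds hx)
      refine h1.congr ?_
      filter_upwards [isOpen_R2.mem_nhds hx] with y hy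
      exact (hgR2 y hy).symm
    · have hx' : x ∈ bb D '' closedBall (0 : ℂ) (1 / 3) := by
        by_contra hcon; exact hx hcon
      have hx2 : x ∈ bb D '' ball (0 : ℂ) (1 / 2) := image_mono closedBall_sub hx'
      have h1 : g =ᶠ[𝓝 x] fun _ => c := by
        filter_upwards [(isOpen_bb_image (D := D) isOpen_ball subset_rfl).mem_nhds hx2] with y hy
        simp only [g, if_pos hy]
      exact continuousAt_const.congr h1.symm
  rw [← hgR2 x hx, ← hgR2 y hy, bool_const hg x, bool_const hg y]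

/-- The curve. -/
noncomputable def gam (D : CoverData) (t : Circle) : Surf D := bb D ((t : ℂ) / 3)

lemma circ_mem (t : Circle) : (t : ℂ) / 3 ∈ sphere (0 : ℂ) (1 / 3) := by
  rw [mem_sphere, dist_zero_right, norm_div, Circle.norm_coe]
  simp

lemma continuous_gam : Continuous (gam D) := by
  have h : Continuous (fun t : Circle => (t : ℂ) / 3) := by fun_prop
  exact bb_continuousOn.comp_continuous h fun t => sphere_sub (circ_mem t)

lemma injective_gam : Function.Injective (gam D) := by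
  intro s t h
  have := bb_injOn (sphere_sub (circ_mem s)) (sphere_sub (circ_mem t)) h
  apply Circle.ext
  have h3 : (3 : ℂ) ≠ 0 := by norm_num
  field_simp at this
  exact this

lemma range_gam : range (gam D) = bb D '' sphere (0 : ℂ) (1 / 3) := by
  ext x
  constructor
  · rintro ⟨t, rfl⟩
    exact ⟨_, circ_mem t, rfl⟩
  · rintro ⟨z, hz, rfl⟩
    rw [mem_sphere, dist_zero_right] at hz
    refine ⟨⟨3 * z, ?_⟩, ?_⟩
    · change 3 * z ∈ sphere (0 : ℂ) 1
      rw [mem_sphere, dist_zero_right, norm_mul, hz]; simp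
    · change bb D ((3 * z) / 3) = _
      congr 1
      field_simp

lemma compl_range_gam : (range (gam D))ᶜ = R1 D ∪ R2 D := by
  rw [range_gam]
  ext x
  constructor
  · intro hx
    by_cases h : x ∈ R2 D
    · exact Or.inr h
    · left
      have h' : x ∈ bb D '' closedBall (0 : ℂ) (1 / 3) := by
        by_contra hcon; exact h hcon
      obtain ⟨z, hz, rfl⟩ := h'
      refine ⟨z, ?_, rfl⟩
      rw [mem_closedBall, dist_zero_right] at hz
      rw [mem_ball, dist_zero_right]
      refine lt_of_le_of_ne hz fun h2 => hx ⟨z, ?_, rfl⟩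
      rw [mem_sphere, dist_zero_right]; exact h2
  · rintro (⟨z, hz, rfl⟩ | h) ⟨y, hy, hyx⟩
    · have := bb_injOn (sphere_sub hy) (ball_sub hz) hyx
      subst this
      rw [mem_ball] at hz
      rw [mem_sphere] at hy
      linarith
    · exact h ⟨y, sphere_subset_closedBall hy, hyx⟩

lemma disjoint_R1_R2 : Disjoint (R1 D) (R2 D) := by
  rw [disjoint_left]
  rintro _ ⟨z, hz, rfl⟩ h2
  exact h2 ⟨z, ball_subset_closedBall hz, rfl⟩

lemma base_mem_R1 : bb D 0 ∈ R1 D := ⟨0, by simp, rfl⟩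

lemma qk_mem_R2 (k : ℕ) : qk D k ∈ R2 D := by
  rintro ⟨z, hz, hzq⟩
  have h1 : (bb D z).z = z := bb_z (closedBall_sub hz)
  have h0 : (qk D k).z = 0 := rfl
  rw [hzq, h0] at h1
  subst h1
  have h2 : (bb D 0).w k = D.s k 0 := by rw [bb_of_mem (by simp)]
  have h3 : (qk D k).w k = -D.s k 0 := by
    change (if k = k then -D.s k 0 else D.s k 0) = _
    simp
  rw [hzq, h3] at h2
  have h4 : D.s k 0 ≠ 0 := (base_isPt (D := D) (z := 0) (by simp) k).wne k
  apply h4
  have : (2 : ℂ) * D.s k 0 = 0 := by linear_combination -h2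
  rcases mul_eq_zero.1 this with h5 | h5
  · norm_num at h5
  · exact h5

lemma not_isPreconnected : ¬ IsPreconnected (range (gam D))ᶜ := by
  rw [compl_range_gam]
  intro h
  obtain ⟨x, _, hx1, hx2⟩ := h (R1 D) (R2 D) isOpen_R1 isOpen_R2 subset_rfl
    ⟨bb D 0, Or.inl base_mem_R1, base_mem_R1⟩ ⟨qk D 0, Or.inr (qk_mem_R2 0), qk_mem_R2 0⟩
  exact (disjoint_left.1 disjoint_R1_R2) hx1 hx2

end Pool.Agent.H27
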