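import Mathlib

set_option autoImplicit false

/-!
For a submonoid `S` of a commutative Banach algebra `A`: the largest seminorm below the norm for which
the elements of `S` have norm at most one, and the corresponding completion.
-/

namespace Pool.Agent.H27

open WeakDual Filter Topology

universe u

section RepSec

variable {A : Type u} [NormedCommRing A]

/-- `Rep S b r`: the element `b` is a finite sum `∑ a i * s i` with `s i ∈ S` and `∑ ‖a i‖ ≤ r`. -/
inductive Rep (S : Submonoid A) : A → ℝ → Prop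
  | zero (r : ℝ) (hr : 0 ≤ r) : Rep S 0 r
  | add (a s b : A) (r r' : ℝ) (hs : s ∈ S) (hb : Rep S b r) (hr : ‖a‖ + r ≤ r') :
      Rep S (a * s + b) r'

variable {S T : Submonoid A}

lemma Rep.nonneg {b : A} {r : ℝ} (h : Rep S b r) : 0 ≤ r := by
  induction h with
  | zero r hr => exact hr
  | add a s b r r' hs hb hr ih => linarith [norm_nonneg a]

lemma Rep.mono {b : A} {r r' : ℝ} (h : Rep S b r) (hr : r ≤ r') : Rep S b r' := by
  cases h with
  | zero _ h0 => exact Rep.zero _ (h0.trans hr)
  | add a s b r0 _ hs hb h1 => exact Rep.add a s b r0 r' hs hb (h1.trans hr)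

lemma Rep.mono_set {b : A} {r : ℝ} (hST : S ≤ T) (h : Rep S b r) : Rep T b r := by
  induction h with
  | zero r hr => exact Rep.zero _ hr
  | add a s b r r' hs hb hr ih => exact Rep.add a s b r r' (hST hs) ih hr

lemma Rep.single (a s : A) (hs : s ∈ S) : Rep S (a * s) ‖a‖ := by
  have := Rep.add a s 0 0 ‖a‖ hs (Rep.zero 0 le_rfl) (by simp)
  simpa using this

lemma Rep.self (b : A) : Rep S b ‖b‖ := by
  simpa using Rep.single (S := S) b 1 S.one_mem

lemma Rep.plus {b c : A} {r t : ℝ} (hb : Rep S b r) (hc : Rep S c t) : Rep S (b + c) (r + t) := by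
  induction hb with
  | zero r hr => rw [zero_add]; exact hc.mono (by linarith)
  | add a s b r r' hs hb hr ih =>
    rw [add_assoc]
    exact Rep.add a s _ (r + t) _ hs ih (by linarith)

lemma Rep.smulmul {c : A} {t : ℝ} (a s : A) (hs : s ∈ S) (hc : Rep S c t) :
    Rep S (a * s * c) (‖a‖ * t) := by
  induction hc with
  | zero r hr => rw [mul_zero]; exact Rep.zero _ (mul_nonneg (norm_nonneg _) hr)
  | add a' s' b r r' hs' hb hr ih =>
    have h1 : a * s * (a' * s' + b) = (a * a') * (s * s') + a * s * b := by ring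
    rw [h1]
    refine Rep.add _ _ _ (‖a‖ * r) _ (S.mul_mem hs hs') ih ?_
    calc ‖a * a'‖ + ‖a‖ * r ≤ ‖a‖ * ‖a'‖ + ‖a‖ * r := by gcongr; exact norm_mul_le _ _
      _ = ‖a‖ * (‖a'‖ + r) := by ring
      _ ≤ ‖a‖ * r' := by gcongr

lemma Rep.times {b c : A} {r t : ℝ} (hb : Rep S b r) (hc : Rep S c t) : Rep S (b * c) (r * t) := by
  have ht := hc.nonneg
  induction hb with
  | zero r hr => rw [zero_mul]; exact Rep.zero _ (mul_nonneg hr ht)
  | add a s b r r' hs hb hr ih =>
    rw [add_mul]
    refine ((Rep.smulmul a s hs hc).plus ih).mono ?_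
    nlinarith

lemma Rep.neg {b : A} {r : ℝ} (hb : Rep S b r) : Rep S (-b) r := by
  induction hb with
  | zero r hr => rw [neg_zero]; exact Rep.zero _ hr
  | add a s b r r' hs hb hr ih =>
    have h1 : -(a * s + b) = (-a) * s + -b := by ring
    rw [h1]
    exact Rep.add _ _ _ r _ hs ih (by rwa [norm_neg])

lemma Rep.smul [NormedAlgebra ℂ A] {b : A} {r : ℝ} (c : ℂ) (hb : Rep S b r) :
    Rep S (c • b) (‖c‖ * r) := by
  induction hb with
  | zero r hr => rw [smul_zero]; exact Rep.zero _ (mul_nonneg (norm_nonneg _) hr)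
  | add a s b r r' hs hb hr ih =>
    have h1 : c • (a * s + b) = (c • a) * s + c • b := by rw [smul_add, smul_mul_assoc]
    rw [h1]
    refine Rep.add _ _ _ _ _ hs ih ?_
    rw [norm_smul]
    calc ‖c‖ * ‖a‖ + ‖c‖ * r = ‖c‖ * (‖a‖ + r) := by ring
      _ ≤ ‖c‖ * r' := by gcongr

/-- The seminorm. -/
noncomputable def pS (S : Submonoid A) (b : A) : ℝ := sInf {r | Rep S b r}

lemma pS_set_bddBelow (b : A) : BddBelow {r | Rep S b r} := ⟨0, fun _ hr => hr.nonneg⟩

lemma pS_set_nonempty (b : A) : {r | Rep S b r}.Nonempty := ⟨_, Rep.self b⟩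

lemma pS_le {b : A} {r : ℝ} (h : Rep S b r) : pS S b ≤ r := csInf_le (pS_set_bddBelow b) h

lemma exists_rep_lt {b : A} {δ : ℝ} (h : pS S b < δ) : ∃ r, r < δ ∧ Rep S b r := by
  obtain ⟨r, hr, hlt⟩ := exists_lt_of_csInf_lt (pS_set_nonempty b) h
  exact ⟨r, hlt, hr⟩

lemma pS_nonneg (b : A) : 0 ≤ pS S b := le_csInf (pS_set_nonempty b) fun _ hr => hr.nonneg

lemma le_pS {b : A} {x : ℝ} (h : ∀ r, Rep S b r → x ≤ r) : x ≤ pS S b :=
  le_csInf (pS_set_nonempty b) h

lemma pS_le_norm (b : A) : pS S b ≤ ‖b‖ := pS_le (Rep.self b)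

lemma pS_add_le (b c : A) : pS S (b + c) ≤ pS S b + pS S c := by
  refine le_of_forall_pos_le_add fun ε hε => ?_
  obtain ⟨r, hr, h1⟩ := exists_rep_lt (S := S) (b := b) (δ := pS S b + ε / 2) (by linarith)
  obtain ⟨t, ht, h2⟩ := exists_rep_lt (S := S) (b := c) (δ := pS S c + ε / 2) (by linarith)
  linarith [pS_le (h1.plus h2)]

lemma pS_neg (b : A) : pS S (-b) = pS S b := by
  have h : ∀ b : A, pS S (-b) ≤ pS S b := fun b => le_pS fun r hr => pS_le hr.neg
  refine le_antisymm (h b) ?_
  simpa using h (-b)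

lemma pS_mul_le (b c : A) : pS S (b * c) ≤ pS S b * pS S c := by
  have h1 : ∀ r, Rep S b r → pS S (b * c) ≤ r * pS S c := by
    intro r hr
    rcases eq_or_lt_of_le hr.nonneg with h0 | h0
    · obtain ⟨t, ht, h2⟩ := exists_rep_lt (S := S) (b := c) (δ := pS S c + 1) (by linarith)
      have := pS_le (hr.times h2)
      rw [← h0] at this ⊢
      simpa using this
    · have : ∀ t, Rep S c t → pS S (b * c) / r ≤ t := by
        intro t ht
        rw [div_le_iff₀ h0]
        have := pS_le (hr.times ht)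
        linarith [mul_comm r t]
      have h3 := le_pS this
      rw [div_le_iff₀ h0] at h3
      linarith [mul_comm r (pS S c)]
  rcases eq_or_lt_of_le (pS_nonneg (S := S) c) with h0 | h0
  · obtain ⟨t, ht, h2⟩ := exists_rep_lt (S := S) (b := b) (δ := pS S b + 1) (by linarith)
    have := h1 t h2
    rw [← h0] at this ⊢
    simpa using this
  · have : ∀ t, Rep S b t → pS S (b * c) / pS S c ≤ t := by
      intro t ht
      rw [div_le_iff₀ h0]
      exact h1 t ht
    have h3 := le_pS this
    rwa [div_le_iff₀ h0] at h3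

lemma pS_zero : pS S (0 : A) = 0 :=
  le_antisymm (pS_le (Rep.zero 0 le_rfl)) (pS_nonneg 0)

/-- The seminorm as a ring seminorm. -/
noncomputable def pSring (S : Submonoid A) : RingSeminorm A where
  toFun := pS S
  map_zero' := pS_zero
  add_le' := pS_add_le
  neg' := pS_neg
  mul_le' := pS_mul_le

/-- The algebra `A` with the seminorm `pS S`. -/
def AS (_S : Submonoid A) : Type u := A

noncomputable instance instSNR (S : Submonoid A) : SeminormedCommRing (AS S) where
  __ := (pSring S).toAddGroupSeminorm.toSeminormedAddCommGroup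
  __ := (inferInstanceAs (CommRing A) : CommRing (AS S))
  norm_mul_le := fun a b => pS_mul_le (A := A) (S := S) a b

/-- Identity map. -/
noncomputable def toAS (S : Submonoid A) : A ≃+* AS S where
  toFun := fun a => a
  invFun := fun a => a
  left_inv := fun _ => rfl
  right_inv := fun _ => rfl
  map_mul' := fun _ _ => rfl
  map_add' := fun _ _ => rfl

lemma norm_toAS (S : Submonoid A) (b : A) : ‖toAS S b‖ = pS S b := rfl

variable [NormedAlgebra ℂ A]

noncomputable instance instAlg (S : Submonoid A) : Algebra ℂ (AS S) where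
  smul := fun c a => (c • (show A from a) : A)
  algebraMap := (toAS S).toRingHom.comp (algebraMap ℂ A)
  commutes' := fun _ _ => mul_comm _ _
  smul_def' := fun c a => Algebra.smul_def c (show A from a)

lemma toAS_smul (S : Submonoid A) (c : ℂ) (b : A) : toAS S (c • b) = c • toAS S b := rfl

lemma toAS_algebraMap (S : Submonoid A) (c : ℂ) : toAS S (algebraMap ℂ A c) = algebraMap ℂ (AS S) c :=
  rfl

lemma pS_smul_le (c : ℂ) (b : A) : pS S (c • b) ≤ ‖c‖ * pS S b := by
  rcases eq_or_lt_of_le (norm_nonneg c) with h0 | h0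
  · have : c = 0 := norm_eq_zero.1 h0.symm
    rw [this, zero_smul, pS_zero]; simp
  · have : ∀ t, Rep S b t → pS S (c • b) / ‖c‖ ≤ t := by
      intro t ht
      rw [div_le_iff₀ h0]
      have := pS_le (ht.smul c)
      linarith [mul_comm t ‖c‖]
    have h3 := le_pS this
    rw [div_le_iff₀ h0] at h3
    linarith [mul_comm ‖c‖ (pS S b)]

noncomputable instance instNA (S : Submonoid A) : NormedAlgebra ℂ (AS S) where
  __ := instAlg S
  norm_smul_le := fun c b => pS_smul_le (A := A) (S := S) c b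

/-- The completed algebra. -/
abbrev Hat (S : Submonoid A) : Type u := UniformSpace.Completion (AS S)

/-- The map of `A` to the completed algebra. -/
noncomputable def jj (S : Submonoid A) : A →ₐ[ℂ] Hat S where
  toRingHom := (UniformSpace.Completion.coeRingHom (α := AS S)).comp (toAS S).toRingHom
  commutes' := fun c => by
    change ((toAS S (algebraMap ℂ A c) : AS S) : UniformSpace.Completion (AS S)) = _
    rw [toAS_algebraMap]
    rfl

lemma norm_jj (S : Submonoid A) (b : A) : ‖jj S b‖ = pS S b := by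
  change ‖((toAS S b : AS S) : UniformSpace.Completion (AS S))‖ = _
  rw [UniformSpace.Completion.norm_coe, norm_toAS]

lemma denseRange_jj (S : Submonoid A) : DenseRange (jj S) := by
  have h := UniformSpace.Completion.denseRange_coe (α := AS S)
  intro x
  exact h x

/-- Extension of contractive homomorphisms to the completion. -/
lemma exists_ext {B : Type*} [NormedCommRing B] [NormedAlgebra ℂ B] [CompleteSpace B]
    (S : Submonoid A) (f : A →ₐ[ℂ] B) (hf : ∀ b, ‖f b‖ ≤ pS S b) :
    ∃ F : Hat S →ₐ[ℂ] B, (∀ a, F (jj S a) = f a) ∧ ∀ x, ‖F x‖ ≤ ‖x‖ := by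
  let g : AS S →+* B := (f : A →+* B).comp (toAS S).symm.toRingHom
  have hg : Continuous g := by
    refine AddMonoidHomClass.continuous_of_bound g 1 fun x => ?_
    rw [one_mul]
    exact hf _
  let G : Hat S →+* B := UniformSpace.Completion.extensionHom g hg
  have hG : ∀ a, G (jj S a) = f a := fun a => UniformSpace.Completion.extensionHom_coe g hg (toAS S a)
  let F : Hat S →ₐ[ℂ] B :=
    { G with
      commutes' := fun c => by
        have h1 := hG (algebraMap ℂ A c)
        rw [AlgHom.commutes, AlgHom.commutes] at h1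
        exact h1 }
  have hF : ∀ a, F (jj S a) = f a := hG
  have hFc : Continuous F := UniformSpace.Completion.continuous_extension
  refine ⟨F, hF, fun x => ?_⟩
  refine (denseRange_jj S).induction_on (p := fun x => ‖F x‖ ≤ ‖x‖) x ?_ ?_
  · exact isClosed_le hFc.norm continuous_norm
  · intro a
    rw [hF, norm_jj]
    exact hf a

/-- The restriction map between the completed algebras. -/
lemma exists_res {S T : Submonoid A} (h : S ≤ T) :
    ∃ F : Hat S →ₐ[ℂ] Hat T, (∀ a, F (jj S a) = jj T a) ∧ ∀ x, ‖F x‖ ≤ ‖x‖ := by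
  refine exists_ext S (jj T) fun b => ?_
  rw [norm_jj]
  exact le_pS fun r hr => pS_le (hr.mono_set h)

end RepSec

section CharSec

variable {A : Type u} [NormedCommRing A] [NormedAlgebra ℂ A] [CompleteSpace A] [NormOneClass A]

/-- The set of characters bounded by one on `S`. -/
def YY (S : Submonoid A) : Set (characterSpace ℂ A) := {φ | ∀ s ∈ S, ‖φ s‖ ≤ 1}

lemma char_norm_le (φ : characterSpace ℂ A) (a : A) : ‖φ a‖ ≤ ‖a‖ :=
  AlgHom.norm_apply_le_self φ a

lemma Rep.char_le {S : Submonoid A} {b : A} {r : ℝ} (h : Rep S b r) {φ : characterSpace ℂ A}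
    (hφ : φ ∈ YY S) : ‖φ b‖ ≤ r := by
  induction h with
  | zero r hr => rw [map_zero, norm_zero]; exact hr
  | add a s b r r' hs hb hr ih =>
    rw [map_add, map_mul]
    calc ‖φ a * φ s + φ b‖ ≤ ‖φ a‖ * ‖φ s‖ + ‖φ b‖ := by
          rw [← norm_mul]; exact norm_add_le _ _
      _ ≤ ‖a‖ * 1 + r := by
          gcongr
          · exact char_norm_le φ a
          · exact hφ s hs
      _ ≤ r' := by linarith

lemma char_le_pS {S : Submonoid A} {φ : characterSpace ℂ A} (hφ : φ ∈ YY S) (b : A) :
    ‖φ b‖ ≤ pS S b := le_pS fun _ hr => hr.char_le hφ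

lemma pS_mem_le {S : Submonoid A} {s : A} (hs : s ∈ S) : pS S s ≤ 1 := by
  have := Rep.single (S := S) (1 : A) s hs
  rw [one_mul, norm_one] at this
  exact pS_le this

/-- Characters in `YY S` extend to the completed algebra. -/
lemma exists_char_ext {S : Submonoid A} {φ : characterSpace ℂ A} (hφ : φ ∈ YY S) :
    ∃ Φ : characterSpace ℂ (Hat S), (∀ a, Φ (jj S a) = φ a) ∧ ∀ x, ‖Φ x‖ ≤ ‖x‖ := by
  obtain ⟨F, hF, hFn⟩ := exists_ext S (CharacterSpace.equivAlgHom φ) (fun b => char_le_pS hφ b)
  refine ⟨CharacterSpace.equivAlgHom.symm F, fun a => ?_, fun x => ?_⟩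
  · rw [CharacterSpace.equivAlgHom_symm_coe, hF]; rfl
  · rw [CharacterSpace.equivAlgHom_symm_coe]; exact hFn x

/-- Characters of the completed algebra restrict to characters in `YY S`. -/
lemma exists_char_res {S : Submonoid A} (Φ : characterSpace ℂ (Hat S)) :
    ∃ φ : characterSpace ℂ A, φ ∈ YY S ∧ ∀ a, φ a = Φ (jj S a) := by
  refine ⟨CharacterSpace.equivAlgHom.symm ((CharacterSpace.equivAlgHom Φ).comp (jj S)), ?_, ?_⟩
  · intro s hs
    rw [CharacterSpace.equivAlgHom_symm_coe]
    change ‖Φ (jj S s)‖ ≤ 1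
    have h1 : ‖Φ (jj S s)‖ ≤ ‖jj S s‖ * ‖(1 : Hat S)‖ := AlgHom.norm_apply_le_self_mul_norm_one Φ _
    have h2 : ‖(1 : Hat S)‖ ≤ 1 := by
      rw [← map_one (jj S), norm_jj]
      exact pS_mem_le S.one_mem
    have h3 : ‖jj S s‖ ≤ 1 := by rw [norm_jj]; exact pS_mem_le hs
    nlinarith [norm_nonneg (jj S s), norm_nonneg (1 : Hat S)]
  · intro a
    rw [CharacterSpace.equivAlgHom_symm_coe]
    rfl

end CharSec

end Pool.Agent.H27
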