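import Mathlib

set_option autoImplicit false

/-!
Idempotents in commutative complex Banach algebras.
-/

namespace Pool.Agent.H27

open PowerSeries Finset

/-- Coefficients of `(1 - x)^(-1/2)`. -/
noncomputable def cc (n : ℕ) : ℝ := (Nat.centralBinom n : ℝ) / 4 ^ n

lemma cc_zero : cc 0 = 1 := by simp [cc]

lemma cc_nonneg (n : ℕ) : 0 ≤ cc n := by unfold cc; positivity

lemma cc_succ (n : ℕ) : 2 * ((n : ℝ) + 1) * cc (n + 1) = (2 * n + 1) * cc n := by
  have h := Nat.succ_mul_centralBinom_succ n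
  have h' : ((n : ℝ) + 1) * (Nat.centralBinom (n + 1) : ℝ)
      = 2 * (2 * n + 1) * (Nat.centralBinom n : ℝ) := by exact_mod_cast h
  unfold cc
  rw [pow_succ]
  field_simp
  linarith

lemma cc_conv (n : ℕ) : ∑ kl ∈ antidiagonal n, cc kl.1 * cc kl.2 = 1 := by
  set f : PowerSeries ℝ := PowerSeries.mk cc with hf
  have hode : 2 * ((1 - X) * derivative ℝ f) = f := by
    have h1 : (2 : PowerSeries ℝ) * ((1 - X) * derivative ℝ f)
        = 2 * derivative ℝ f - 2 * (X * derivative ℝ f) := by ring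
    rw [h1]
    ext m
    rw [map_sub]
    have h2 : (2 : PowerSeries ℝ) = C (2 : ℝ) := (map_ofNat C 2).symm
    rw [h2, coeff_C_mul, coeff_C_mul]
    cases m with
    | zero =>
      simp only [coeff_zero_X_mul, coeff_derivative, hf, coeff_mk]
      have := cc_succ 0
      simp at this ⊢
      linarith
    | succ m =>
      rw [coeff_succ_X_mul]
      simp only [coeff_derivative, hf, coeff_mk]
      have := cc_succ (m + 1)
      push_cast at this ⊢
      linarith
  have hder : derivative ℝ (f * f * (1 - X)) = derivative ℝ (1 : PowerSeries ℝ) := by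
    have h1 : derivative ℝ (1 - X : PowerSeries ℝ) = -1 := by
      rw [map_sub, derivative_X]; simp
    rw [Derivation.leibniz, Derivation.leibniz, h1]
    simp only [smul_eq_mul]
    have : derivative ℝ (1 : PowerSeries ℝ) = 0 := by simp
    rw [this]
    linear_combination f * hode
  have hone : f * f * (1 - X) = 1 := by
    refine derivative.ext hder ?_
    simp [hf, cc_zero]
  have hinv : f * f = PowerSeries.mk 1 := by
    have h3 : (PowerSeries.mk 1 : PowerSeries ℝ) * (1 - X) = 1 := by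
      exact PowerSeries.mk_one_mul_one_sub_eq_one ℝ
    calc f * f = f * f * ((PowerSeries.mk 1 : PowerSeries ℝ) * (1 - X)) := by rw [h3, mul_one]
      _ = (f * f * (1 - X)) * PowerSeries.mk 1 := by ring
      _ = _ := by rw [hone, one_mul]
  have := congrArg (coeff n) hinv
  rw [coeff_mul] at this
  simpa [hf] using this

lemma cc_le_one (n : ℕ) : cc n ≤ 1 := by
  have h := cc_conv n
  have h2 : cc (0 : ℕ) * cc n ≤ ∑ kl ∈ antidiagonal n, cc kl.1 * cc kl.2 := by
    have : ((0 : ℕ), n) ∈ antidiagonal n := by simp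
    exact Finset.single_le_sum (f := fun kl : ℕ × ℕ => cc kl.1 * cc kl.2)
      (fun i _ => mul_nonneg (cc_nonneg _) (cc_nonneg _)) this
  rw [h, cc_zero, one_mul] at h2
  exact h2

section Banach

open WeakDual Filter Topology

variable {B : Type*} [NormedCommRing B] [NormedAlgebra ℂ B] [CompleteSpace B]

/-- Power bound from a bound on all characters. -/
lemma summable_pow_of_char_lt (a : B) (r : ℝ) (hr0 : 0 ≤ r) (hr : r < 1)
    (h : ∀ Φ : characterSpace ℂ B, ‖Φ a‖ ≤ r) : Summable (fun n : ℕ => ‖a ^ n‖) := by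
  have hs : spectralRadius ℂ a ≤ ENNReal.ofReal r := by
    unfold spectralRadius
    refine iSup₂_le fun k hk => ?_
    obtain ⟨f, hf⟩ := WeakDual.CharacterSpace.mem_spectrum_iff_exists.1 hk
    rw [← hf]
    have h1 : (‖f a‖₊ : ENNReal) = ENNReal.ofReal ‖f a‖ := by
      rw [← norm_toNNReal]; rfl
    rw [h1]
    exact ENNReal.ofReal_le_ofReal (h f)
  obtain ⟨r', hr1, hr2⟩ := exists_between hr
  have hr'0 : 0 < r' := lt_of_le_of_lt hr0 hr1
  have hlt : spectralRadius ℂ a < ENNReal.ofReal r' :=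
    lt_of_le_of_lt hs ((ENNReal.ofReal_lt_ofReal_iff hr'0).2 hr1)
  have hev := (spectrum.pow_norm_pow_one_div_tendsto_nhds_spectralRadius a).eventually
    (gt_mem_nhds hlt)
  have hev2 : ∀ᶠ n : ℕ in atTop, ‖a ^ n‖ ≤ r' ^ n := by
    filter_upwards [hev, eventually_gt_atTop 0] with n hn hn0
    have h1 : ‖a ^ n‖ ^ (1 / n : ℝ) < r' := (ENNReal.ofReal_lt_ofReal_iff hr'0).1 hn
    have h2 : (‖a ^ n‖ ^ (1 / n : ℝ)) ^ n < r' ^ n :=
      pow_lt_pow_left₀ h1 (by positivity) hn0.ne'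
    rw [← Real.rpow_natCast, ← Real.rpow_mul (norm_nonneg _)] at h2
    have h3 : (1 / (n : ℝ)) * n = 1 := by field_simp
    rw [h3, Real.rpow_one] at h2
    exact h2.le
  refine Summable.of_norm_bounded_eventually_nat (g := fun n => r' ^ n)
    (summable_geometric_of_lt_one hr'0.le hr2) ?_
  filter_upwards [hev2] with n hn
  simpa using hn

/-- Idempotents equal on all characters are equal. -/
lemma idem_unique {e e' : B} (he : e * e = e) (he' : e' * e' = e')
    (h : ∀ Φ : characterSpace ℂ B, Φ e = Φ e') : e = e' := by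
  have hu : IsUnit (1 - (e - e') ^ 2) := by
    by_contra hcon
    obtain ⟨f, hf⟩ := WeakDual.CharacterSpace.exists_apply_eq_zero hcon
    have : f (1 - (e - e') ^ 2) = 1 := by
      rw [map_sub, map_one, map_pow, map_sub, h f]; simp
    rw [this] at hf
    exact one_ne_zero hf
  have hz : (e - e') * (1 - (e - e') ^ 2) = 0 := by
    have : (e - e') * (1 - (e - e') ^ 2)
      = e - e' - (e * e) * e + 3 * (e * e) * e' - 3 * e * (e' * e') + (e' * e') * e' := by ring
    rw [this, he, he', he, he']; ring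
  have := (hu.mul_left_eq_zero).1 hz
  exact sub_eq_zero.1 this

/-- Existence of the idempotent. -/
lemma exists_idem (b : B) (hb : ∀ Φ : characterSpace ℂ B, ‖Φ b‖ < 1 / 8 ∨ ‖Φ b - 1‖ < 1 / 8) :
    ∃ e : B, e * e = e ∧ ∀ Φ : characterSpace ℂ B,
      (‖Φ b‖ < 1 / 8 → Φ e = 0) ∧ (‖Φ b - 1‖ < 1 / 8 → Φ e = 1) := by
  set a : B := -4 * (b * b - b) with ha
  set v : B := 2 * b - 1 with hv
  have hv2 : v * v = 1 - a := by rw [hv, ha]; ring
  -- characters of a
  have hchar : ∀ Φ : characterSpace ℂ B, ‖Φ a‖ ≤ 9 / 16 := by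
    intro Φ
    have h1 : Φ a = -4 * (Φ b * (Φ b - 1)) := by
      rw [ha]; simp only [map_mul, map_neg, map_sub]
      have : Φ (4 : B) = 4 := map_ofNat Φ 4
      rw [this]; ring
    rw [h1, norm_mul, norm_mul]
    have h4 : ‖(-4 : ℂ)‖ = 4 := by simp
    rw [h4]
    rcases hb Φ with h | h
    · have h5 : ‖Φ b - 1‖ ≤ 9 / 8 := by
        calc ‖Φ b - 1‖ ≤ ‖Φ b‖ + ‖(1 : ℂ)‖ := norm_sub_le _ _
          _ ≤ 9 / 8 := by rw [norm_one]; linarith
      nlinarith [norm_nonneg (Φ b), norm_nonneg (Φ b - 1)]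
    · have h5 : ‖Φ b‖ ≤ 9 / 8 := by
        calc ‖Φ b‖ = ‖(Φ b - 1) + 1‖ := by ring_nf
          _ ≤ ‖Φ b - 1‖ + ‖(1 : ℂ)‖ := norm_add_le _ _
          _ ≤ 9 / 8 := by rw [norm_one]; linarith
      nlinarith [norm_nonneg (Φ b), norm_nonneg (Φ b - 1)]
  have hsum := summable_pow_of_char_lt a (9 / 16) (by norm_num) (by norm_num) hchar
  have hsumcc : Summable (fun n : ℕ => ‖(cc n : ℂ) • a ^ n‖) := by
    refine Summable.of_nonneg_of_le (fun n => norm_nonneg _) (fun n => ?_) hsum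
    rw [norm_smul]
    have : ‖(cc n : ℂ)‖ ≤ 1 := by
      rw [Complex.norm_real, Real.norm_eq_abs, abs_of_nonneg (cc_nonneg n)]; exact cc_le_one n
    calc ‖(cc n : ℂ)‖ * ‖a ^ n‖ ≤ 1 * ‖a ^ n‖ := by gcongr
      _ = _ := one_mul _
  set u : B := ∑' n : ℕ, (cc n : ℂ) • a ^ n with hu
  have huu : u * u = ∑' n : ℕ, a ^ n := by
    rw [hu, tsum_mul_tsum_eq_tsum_sum_antidiagonal_of_summable_norm hsumcc hsumcc]
    refine tsum_congr fun n => ?_
    have : ∀ kl ∈ antidiagonal n, ((cc kl.1 : ℂ) • a ^ kl.1) * ((cc kl.2 : ℂ) • a ^ kl.2)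
        = ((cc kl.1 * cc kl.2 : ℝ) : ℂ) • a ^ n := by
      intro kl hkl
      have hkl := Finset.HasAntidiagonal.mem_antidiagonal.1 hkl
      rw [smul_mul_smul_comm, ← pow_add, hkl]
      push_cast
      rfl
    rw [Finset.sum_congr rfl this, ← Finset.sum_smul, ← Complex.ofReal_sum, cc_conv n]
    simp
  have huu1 : (1 - a) * (u * u) = 1 := by
    rw [huu]
    exact Summable.one_sub_mul_tsum_pow hsum.of_norm
  have hvu : (v * u) * (v * u) = 1 := by
    calc (v * u) * (v * u) = (v * v) * (u * u) := by ring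
      _ = 1 := by rw [hv2, huu1]
  refine ⟨(1 / 2 : ℂ) • (1 + v * u), ?_, ?_⟩
  · rw [smul_mul_smul_comm]
    have : (1 + v * u) * (1 + v * u) = (2 : ℂ) • (1 + v * u) := by
      have h2 : (2 : ℂ) • (1 + v * u) = (1 + v * u) + (1 + v * u) := two_smul _ _
      rw [h2]
      calc (1 + v * u) * (1 + v * u) = 1 + 2 * (v * u) + (v * u) * (v * u) := by ring
        _ = _ := by rw [hvu]; ring
    rw [this, smul_smul]; norm_num
  · intro Φ
    -- value of u
    have hΦu : HasSum (fun n : ℕ => (cc n : ℂ) * (Φ a) ^ n) (Φ u) := by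
      have h1 : HasSum (fun n : ℕ => (cc n : ℂ) • a ^ n) u := hsumcc.of_norm.hasSum
      have h2 := h1.mapL (WeakDual.CharacterSpace.toCLM Φ)
      simpa using h2
    have hα := hchar Φ
    have hgeo : Summable (fun n : ℕ => (9 / 16 : ℝ) ^ (n + 1)) := by
      exact (summable_nat_add_iff 1).2 (summable_geometric_of_lt_one (by norm_num) (by norm_num))
    have hU1 : ‖Φ u - 1‖ ≤ 9 / 7 := by
      have h3 : HasSum (fun n : ℕ => (cc (n + 1) : ℂ) * (Φ a) ^ (n + 1)) (Φ u - 1) := by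
        have := (hasSum_nat_add_iff' (f := fun n : ℕ => (cc n : ℂ) * (Φ a) ^ n) 1).2 hΦu
        simpa [cc_zero] using this
      have h4 : ∀ n : ℕ, ‖(cc (n + 1) : ℂ) * (Φ a) ^ (n + 1)‖ ≤ (9 / 16 : ℝ) ^ (n + 1) := by
        intro n
        rw [norm_mul, norm_pow, Complex.norm_real, Real.norm_eq_abs, abs_of_nonneg (cc_nonneg _)]
        calc cc (n + 1) * ‖Φ a‖ ^ (n + 1) ≤ 1 * (9 / 16 : ℝ) ^ (n + 1) := by
              gcongr
              exact cc_le_one _
          _ = _ := one_mul _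
      have h5 : HasSum (fun n : ℕ => (9 / 16 : ℝ) ^ (n + 1)) (9 / 7) := by
        have := (hasSum_geometric_of_lt_one (r := (9 / 16 : ℝ)) (by norm_num) (by norm_num)).mul_left
          (9 / 16 : ℝ)
        have e1 : (fun i : ℕ => (9 / 16 : ℝ) * (9 / 16) ^ i) = fun n => (9 / 16 : ℝ) ^ (n + 1) := by
          funext n; rw [pow_succ]; ring
        have e2 : (9 / 16 : ℝ) * (1 - 9 / 16)⁻¹ = 9 / 7 := by norm_num
        rw [e1, e2] at this
        exact this
      rw [← h3.tsum_eq, ← h5.tsum_eq]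
      exact tsum_of_norm_bounded h5 h4 |>.trans_eq (by rw [h5.tsum_eq])
    have hU : ‖Φ u‖ ≤ 16 / 7 := by
      calc ‖Φ u‖ = ‖(Φ u - 1) + 1‖ := by ring_nf
        _ ≤ ‖Φ u - 1‖ + ‖(1 : ℂ)‖ := norm_add_le _ _
        _ ≤ 16 / 7 := by rw [norm_one]; linarith
    have hΦ2 : Φ (2 : B) = 2 := map_ofNat Φ 2
    have hΦv : Φ v = 2 * Φ b - 1 := by
      rw [hv, map_sub, map_mul, map_one, hΦ2]
    have hw : (Φ v * Φ u) * (Φ v * Φ u) = 1 := by
      rw [← map_mul, ← map_mul, hvu, map_one]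
    have hw' : Φ v * Φ u = 1 ∨ Φ v * Φ u = -1 := mul_self_eq_one_iff.1 hw
    have hΦe : Φ ((1 / 2 : ℂ) • (1 + v * u)) = 1 / 2 * (1 + Φ v * Φ u) := by
      rw [map_smul, map_add, map_one, map_mul, smul_eq_mul]
    constructor
    · intro h
      rw [hΦe]
      rcases hw' with h1 | h1
      · exfalso
        have h6 : ‖Φ v * Φ u + 1‖ ≤ 13 / 7 := by
          calc ‖Φ v * Φ u + 1‖ = ‖(2 * Φ b) * Φ u - (Φ u - 1)‖ := by rw [hΦv]; ring_nf
            _ ≤ ‖(2 * Φ b) * Φ u‖ + ‖Φ u - 1‖ := norm_sub_le _ _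
            _ = 2 * ‖Φ b‖ * ‖Φ u‖ + ‖Φ u - 1‖ := by rw [norm_mul, norm_mul]; norm_num
            _ ≤ 13 / 7 := by nlinarith [norm_nonneg (Φ b), norm_nonneg (Φ u)]
        rw [h1] at h6
        norm_num at h6
      · rw [h1]; ring
    · intro h
      rw [hΦe]
      rcases hw' with h1 | h1
      · rw [h1]; norm_num
      · exfalso
        have h6 : ‖Φ v * Φ u - 1‖ ≤ 13 / 7 := by
          calc ‖Φ v * Φ u - 1‖ = ‖(2 * (Φ b - 1)) * Φ u + (Φ u - 1)‖ := by rw [hΦv]; ring_nf
            _ ≤ ‖(2 * (Φ b - 1)) * Φ u‖ + ‖Φ u - 1‖ := norm_add_le _ _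
            _ = 2 * ‖Φ b - 1‖ * ‖Φ u‖ + ‖Φ u - 1‖ := by rw [norm_mul, norm_mul]; norm_num
            _ ≤ 13 / 7 := by nlinarith [norm_nonneg (Φ b - 1), norm_nonneg (Φ u)]
        rw [h1] at h6
        norm_num at h6

end Banach

end Pool.Agent.H27
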