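import Mathlib
import Pool.Agent.Lib.MP_9ef1f5_an_helper27.Idem
import Pool.Agent.Lib.MP_9ef1f5_an_helper27.Hat

set_option autoImplicit false

/-!
Approximate idempotents: a zero-one valued function which is continuous on `YY S` is up to `1/8` the
Gelfand transform of an element of `A` on `YY S`.
-/

namespace Pool.Agent.H27

open WeakDual Filter Topology

universe u

variable {A : Type u} [NormedCommRing A] [NormedAlgebra ℂ A] [CompleteSpace A] [NormOneClass A]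

omit [NormOneClass A] in
lemma exists_exp : ∃ E : A → A, (∀ x y, E (x + y) = E x * E y) ∧
    (∀ c : ℂ, E (algebraMap ℂ A c) = algebraMap ℂ A (Complex.exp c)) ∧
    ∀ φ : characterSpace ℂ A, ∀ x, φ (E x) = Complex.exp (φ x) := by
  letI : NormedAlgebra ℚ A := .restrictScalars ℚ ℂ A
  refine ⟨NormedSpace.exp, fun x y => NormedSpace.exp_add, fun c => ?_, fun φ x => ?_⟩
  · rw [Complex.exp_eq_exp_ℂ]
    exact (NormedSpace.algebraMap_exp_comm c).symm
  · rw [Complex.exp_eq_exp_ℂ]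
    exact NormedSpace.map_exp φ (map_continuous φ) x

/-- Approximation property. -/
def App (χ : characterSpace ℂ A → ℂ) (S : Submonoid A) : Prop :=
  ∃ b : A, ∀ φ ∈ YY S, ‖φ b - χ φ‖ < 1 / 8

lemma App.idem {χ : characterSpace ℂ A → ℂ} (hχ : ∀ φ, χ φ = 0 ∨ χ φ = 1) {S : Submonoid A}
    (h : App χ S) : ∃ e : Hat S, e * e = e ∧ ∀ Φ : characterSpace ℂ (Hat S),
      ∀ φ : characterSpace ℂ A, (∀ a, φ a = Φ (jj S a)) → Φ e = χ φ := by
  obtain ⟨b, hb⟩ := h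
  have hex : ∀ Φ : characterSpace ℂ (Hat S), ‖Φ (jj S b)‖ < 1 / 8 ∨ ‖Φ (jj S b) - 1‖ < 1 / 8 := by
    intro Φ
    obtain ⟨φ, hφ, h1⟩ := exists_char_res Φ
    have h2 := hb φ hφ
    rw [h1] at h2
    rcases hχ φ with h3 | h3
    · left; rwa [h3, sub_zero] at h2
    · right; rwa [h3] at h2
  obtain ⟨e, he, hΦ⟩ := exists_idem (jj S b) hex
  refine ⟨e, he, fun Φ φ hφ => ?_⟩
  obtain ⟨φ', hφ', h1⟩ := exists_char_res Φ
  have heq : φ = φ' := CharacterSpace.ext fun a => by rw [hφ, h1]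
  subst heq
  have h2 := hb φ hφ'
  rw [h1] at h2
  rcases hχ φ with h3 | h3
  · rw [h3, sub_zero] at h2
    rw [h3]; exact (hΦ Φ).1 h2
  · rw [h3] at h2
    rw [h3]; exact (hΦ Φ).2 h2

/-- Splitting of a representation over `S`, powers of `hm` and powers of `hp`. -/
lemma Rep.split {S : Submonoid A} {hm hp : A} {d : ℝ} (hd0 : 0 ≤ d) (hd : d ≤ 1)
    (hmp : hm * hp = algebraMap ℂ A d) {c : A} {r : ℝ}
    (h : Rep (S ⊔ Submonoid.powers hm ⊔ Submonoid.powers hp) c r) :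
    ∃ bm bp : A, ∃ rm rp : ℝ, c = bm + bp ∧ Rep (S ⊔ Submonoid.powers hm) bm rm ∧
      Rep (S ⊔ Submonoid.powers hp) bp rp ∧ rm + rp ≤ r := by
  induction h with
  | zero r hr => exact ⟨0, 0, 0, 0, by simp, Rep.zero 0 le_rfl, Rep.zero 0 le_rfl, by simpa using hr⟩
  | add a s b r r' hs hb hr ih =>
    obtain ⟨bm, bp, rm, rp, hbe, hrm, hrp, hle⟩ := ih
    obtain ⟨s1, hs1, s2, hs2, hs12⟩ := Submonoid.mem_sup.1 hs
    obtain ⟨s0, hs0, s3, hs3, hs03⟩ := Submonoid.mem_sup.1 hs1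
    obtain ⟨m, hm'⟩ := hs3
    obtain ⟨n, hn'⟩ := hs2
    have hs' : s = s0 * hm ^ m * hp ^ n := by rw [← hs12, ← hs03, ← hm', ← hn']
    have hpow : ∀ k : ℕ, hm ^ k * hp ^ k = algebraMap ℂ A ((d : ℂ) ^ k) := by
      intro k; rw [← mul_pow, hmp, map_pow]
    have hdk : ∀ k : ℕ, ‖a * algebraMap ℂ A ((d : ℂ) ^ k)‖ ≤ ‖a‖ := by
      intro k
      have h1 : a * algebraMap ℂ A ((d : ℂ) ^ k) = ((d : ℂ) ^ k) • a := by
        rw [Algebra.smul_def, mul_comm]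
      rw [h1, norm_smul, norm_pow, Complex.norm_real, Real.norm_eq_abs, abs_of_nonneg hd0]
      calc d ^ k * ‖a‖ ≤ 1 * ‖a‖ := by
            gcongr
            exact pow_le_one₀ hd0 hd
        _ = _ := one_mul _
    rcases le_total n m with hnm | hmn
    · obtain ⟨k, rfl⟩ := Nat.exists_eq_add_of_le hnm
      refine ⟨(a * algebraMap ℂ A ((d : ℂ) ^ n)) * (s0 * hm ^ k) + bm, bp, ‖a‖ + rm, rp, ?_, ?_,
        hrp, by linarith⟩
      · rw [hbe, hs', ← hpow, pow_add]; ring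
      · refine Rep.add _ _ _ rm _ ?_ hrm (by linarith [hdk n])
        exact Submonoid.mul_mem_sup hs0 ⟨k, rfl⟩
    · obtain ⟨k, rfl⟩ := Nat.exists_eq_add_of_le hmn
      refine ⟨bm, (a * algebraMap ℂ A ((d : ℂ) ^ m)) * (s0 * hp ^ k) + bp, rm, ‖a‖ + rp, ?_, hrm,
        ?_, by linarith⟩
      · rw [hbe, hs', ← hpow, pow_add]; ring
      · refine Rep.add _ _ _ rp _ ?_ hrp (by linarith [hdk m])
        exact Submonoid.mul_mem_sup hs0 ⟨k, rfl⟩

/-- From the approximation property: an element close to the idempotent. -/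
lemma close_of_idem {χ : characterSpace ℂ A → ℂ} {S : Submonoid A} {e : Hat S}
    (he : ∀ Φ : characterSpace ℂ (Hat S), ∀ φ : characterSpace ℂ A,
      (∀ a, φ a = Φ (jj S a)) → Φ e = χ φ) {a : A} {ε : ℝ} (ha : ‖jj S a - e‖ < ε)
    {φ : characterSpace ℂ A} (hφ : φ ∈ YY S) : ‖φ a - χ φ‖ < ε := by
  obtain ⟨Φ, h1, h2⟩ := exists_char_ext hφ
  rw [← he Φ φ fun a => (h1 a).symm, ← h1, ← map_sub]
  exact (h2 _).trans_lt ha

lemma exists_close {S : Submonoid A} (e : Hat S) {ε : ℝ} (hε : 0 < ε) :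
    ∃ a : A, ‖jj S a - e‖ < ε := by
  obtain ⟨a, ha⟩ := (denseRange_jj S).exists_dist_lt e hε
  exact ⟨a, by rw [← dist_eq_norm, dist_comm]; exact ha⟩

/-- The gluing lemma. -/
lemma App.glue {χ : characterSpace ℂ A → ℂ} (hχ : ∀ φ, χ φ = 0 ∨ χ φ = 1) {S : Submonoid A}
    {hm hp : A} {d : ℝ} (hd0 : 0 ≤ d) (hd : d ≤ 1) (hmp : hm * hp = algebraMap ℂ A d)
    (hcov : ∀ φ : characterSpace ℂ A, ‖φ hm‖ ≤ 1 ∨ ‖φ hp‖ ≤ 1)
    (h1 : App χ (S ⊔ Submonoid.powers hm)) (h2 : App χ (S ⊔ Submonoid.powers hp)) : App χ S := by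
  obtain ⟨em, hem, hΦm⟩ := h1.idem hχ
  obtain ⟨ep, hep, hΦp⟩ := h2.idem hχ
  have hle1 : S ⊔ Submonoid.powers hm ≤ S ⊔ Submonoid.powers hm ⊔ Submonoid.powers hp := le_sup_left
  have hle2 : S ⊔ Submonoid.powers hp ≤ S ⊔ Submonoid.powers hm ⊔ Submonoid.powers hp :=
    sup_le (le_sup_left.trans le_sup_left) le_sup_right
  obtain ⟨Fm, hFm, hFmn⟩ := exists_res hle1
  obtain ⟨Fp, hFp, hFpn⟩ := exists_res hle2
  have heq : Fm em = Fp ep := by
    refine idem_unique (by rw [← map_mul, hem]) (by rw [← map_mul, hep]) fun Φ => ?_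
    obtain ⟨φ, hφ, h3⟩ := exists_char_res Φ
    have h4 := hΦm (CharacterSpace.equivAlgHom.symm ((CharacterSpace.equivAlgHom Φ).comp Fm)) φ
      (fun a => by rw [CharacterSpace.equivAlgHom_symm_coe, h3, ← hFm]; rfl)
    have h5 := hΦp (CharacterSpace.equivAlgHom.symm ((CharacterSpace.equivAlgHom Φ).comp Fp)) φ
      (fun a => by rw [CharacterSpace.equivAlgHom_symm_coe, h3, ← hFp]; rfl)
    rw [CharacterSpace.equivAlgHom_symm_coe] at h4 h5
    exact h4.trans h5.symm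
  obtain ⟨am, ham⟩ := exists_close em (ε := 1 / 32) (by norm_num)
  obtain ⟨ap, hap⟩ := exists_close ep (ε := 1 / 32) (by norm_num)
  have hsm : pS (S ⊔ Submonoid.powers hm ⊔ Submonoid.powers hp) (am - ap) < 1 / 16 := by
    rw [← norm_jj, map_sub]
    calc ‖jj (S ⊔ Submonoid.powers hm ⊔ Submonoid.powers hp) am - jj _ ap‖
        = ‖Fm (jj _ am - em) - Fp (jj _ ap - ep)‖ := by
          rw [map_sub, map_sub, hFm, hFp, heq]; congr 1; ring
      _ ≤ ‖Fm (jj _ am - em)‖ + ‖Fp (jj _ ap - ep)‖ := norm_sub_le _ _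
      _ ≤ ‖jj _ am - em‖ + ‖jj _ ap - ep‖ := add_le_add (hFmn _) (hFpn _)
      _ < 1 / 16 := by linarith
  obtain ⟨r, hr, hrep⟩ := exists_rep_lt hsm
  obtain ⟨bm, bp, rm, rp, hbe, hrm, hrp, hle⟩ := hrep.split hd0 hd hmp
  have hrm0 := hrm.nonneg
  have hrp0 := hrp.nonneg
  refine ⟨am - bm, fun φ hφ => ?_⟩
  have hmemsup : ∀ x : A, ‖φ x‖ ≤ 1 → φ ∈ YY (S ⊔ Submonoid.powers x) := by
    intro x hx s hs
    obtain ⟨s0, hs0, s1, hs1, hs01⟩ := Submonoid.mem_sup.1 hs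
    obtain ⟨n, hn⟩ := hs1
    rw [← hs01, ← hn, map_mul, map_pow, norm_mul, norm_pow]
    exact mul_le_one₀ (hφ s0 hs0) (by positivity) (pow_le_one₀ (norm_nonneg _) hx)
  rcases hcov φ with h3 | h3
  · have h4 := hmemsup hm h3
    have h5 := close_of_idem hΦm ham h4
    have h6 := hrm.char_le h4
    calc ‖φ (am - bm) - χ φ‖ = ‖(φ am - χ φ) - φ bm‖ := by rw [map_sub]; congr 1; ring
      _ ≤ ‖φ am - χ φ‖ + ‖φ bm‖ := norm_sub_le _ _
      _ < 1 / 8 := by linarith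
  · have h4 := hmemsup hp h3
    have h5 := close_of_idem hΦp hap h4
    have h6 := hrp.char_le h4
    have h7 : am - bm = ap + bp := by
      have : am - ap = bm + bp := hbe
      linear_combination this
    calc ‖φ (am - bm) - χ φ‖ = ‖(φ ap - χ φ) + φ bp‖ := by rw [h7, map_add]; congr 1; ring
      _ ≤ ‖φ ap - χ φ‖ + ‖φ bp‖ := norm_add_le _ _
      _ < 1 / 8 := by linarith

end Pool.Agent.H27
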