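import Mathlib
import Pool.Agent.Lib.MP_9ef1f5_an_helper27.Shilov

set_option autoImplicit false

/-!
The approximation property for all zero-one valued functions continuous on `YY S`.
-/

namespace Pool.Agent.H27

open WeakDual Filter Topology

universe u

variable {A : Type u} [NormedCommRing A] [NormedAlgebra ℂ A] [CompleteSpace A] [NormOneClass A]

lemma continuous_char_apply (a : A) : Continuous (fun φ : characterSpace ℂ A => φ a) :=
  (WeakDual.eval_continuous a).comp continuous_subtype_val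

lemma isClosed_YY (S : Submonoid A) : IsClosed (YY S) := by
  have : YY S = ⋂ s ∈ S, {φ : characterSpace ℂ A | ‖φ s‖ ≤ 1} := by
    ext φ; simp [YY]
  rw [this]
  exact isClosed_biInter fun s _ => isClosed_le (continuous_char_apply s).norm continuous_const

lemma YY_anti {S T : Submonoid A} (h : S ≤ T) : YY T ⊆ YY S := fun _ hφ s hs => hφ s (h hs)

lemma exists_re_ne {φ ψ : characterSpace ℂ A} (h : φ ≠ ψ) : ∃ g : A, (φ g).re ≠ (ψ g).re := by
  by_contra hcon
  push Not at hcon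
  refine h (CharacterSpace.ext fun g => ?_)
  refine Complex.ext (hcon g) ?_
  have := hcon (Complex.I • g)
  rw [map_smul, map_smul] at this
  simpa using this

lemma finite_sep {χ : characterSpace ℂ A → ℂ} {S : Submonoid A} (hcont : ContinuousOn χ (YY S)) :
    ∃ G : Finset A, ∃ η : ℝ, 0 < η ∧ ∀ φ ∈ YY S, ∀ ψ ∈ YY S, χ φ = 0 → χ ψ = 1 →
      ∃ g ∈ G, η < |(φ g).re - (ψ g).re| := by
  have hC : ∀ c : ℂ, IsCompact (YY S ∩ χ ⁻¹' {c}) := fun c =>
    (hcont.preimage_isClosed_of_isClosed (isClosed_YY S) isClosed_singleton).isCompact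
  have hK := (hC 0).prod (hC 1)
  let U : A × ℕ → Set (characterSpace ℂ A × characterSpace ℂ A) := fun p =>
    {q | 1 / ((p.2 : ℝ) + 1) < |(q.1 p.1).re - (q.2 p.1).re|}
  have hU : ∀ p, IsOpen (U p) := fun p => by
    refine isOpen_lt continuous_const ?_
    refine Continuous.abs (Continuous.sub ?_ ?_)
    · exact Complex.continuous_re.comp ((continuous_char_apply p.1).comp continuous_fst)
    · exact Complex.continuous_re.comp ((continuous_char_apply p.1).comp continuous_snd)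
  have hcov : (YY S ∩ χ ⁻¹' {0}) ×ˢ (YY S ∩ χ ⁻¹' {1}) ⊆ ⋃ p, U p := by
    rintro ⟨φ, ψ⟩ ⟨⟨_, h1⟩, ⟨_, h2⟩⟩
    have hne : φ ≠ ψ := by
      rintro rfl
      simp only [Set.mem_preimage, Set.mem_singleton_iff] at h1 h2
      rw [h1] at h2
      exact zero_ne_one h2
    obtain ⟨g, hg⟩ := exists_re_ne hne
    have hpos : 0 < |(φ g).re - (ψ g).re| := abs_pos.2 (sub_ne_zero.2 hg)
    obtain ⟨n, hn⟩ := exists_nat_one_div_lt hpos
    exact Set.mem_iUnion.2 ⟨(g, n), hn⟩
  obtain ⟨t, ht⟩ := hK.elim_finite_subcover U hU hcov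
  classical
  refine ⟨t.image Prod.fst, 1 / ((t.sup Prod.snd : ℕ) + 1 : ℝ), by positivity, ?_⟩
  intro φ hφ ψ hψ h1 h2
  have hmem : ((φ, ψ) : characterSpace ℂ A × characterSpace ℂ A) ∈ ⋃ p ∈ t, U p :=
    ht ⟨⟨hφ, h1⟩, ⟨hψ, h2⟩⟩
  simp only [Set.mem_iUnion] at hmem
  obtain ⟨p, hp, hpU⟩ := hmem
  refine ⟨p.1, Finset.mem_image_of_mem _ hp, ?_⟩
  refine lt_of_le_of_lt ?_ hpU
  have : (p.2 : ℝ) ≤ (t.sup Prod.snd : ℕ) := by exact_mod_cast Finset.le_sup (f := Prod.snd) hp
  gcongr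

/-- The bisection step. -/
lemma App.bisect {χ : characterSpace ℂ A → ℂ} (hχ : ∀ φ, χ φ = 0 ∨ χ φ = 1) {S : Submonoid A}
    (g : A) (c δ : ℝ) (hδ : 0 ≤ δ)
    (h1 : ∀ T : Submonoid A, S ≤ T → (∀ φ ∈ YY T, (φ g).re ≤ c + δ) → App χ T)
    (h2 : ∀ T : Submonoid A, S ≤ T → (∀ φ ∈ YY T, c - δ ≤ (φ g).re) → App χ T) : App χ S := by
  obtain ⟨E, hE1, hE2, hE3⟩ := exists_exp (A := A)
  set hm := E (g + algebraMap ℂ A ((-(c + δ) : ℝ) : ℂ)) with hhm
  set hp := E (-g + algebraMap ℂ A (((c - δ) : ℝ) : ℂ)) with hhp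
  have hnm : ∀ φ : characterSpace ℂ A, ‖φ hm‖ = Real.exp ((φ g).re - (c + δ)) := by
    intro φ
    rw [hhm, hE3, Complex.norm_exp, map_add, AlgHomClass.commutes]
    congr 1
  have hnp : ∀ φ : characterSpace ℂ A, ‖φ hp‖ = Real.exp (-(φ g).re + (c - δ)) := by
    intro φ
    rw [hhp, hE3, Complex.norm_exp, map_add, AlgHomClass.commutes, map_neg]
    congr 1
  have hmp : hm * hp = algebraMap ℂ A (Real.exp (-(2 * δ)) : ℝ) := by
    rw [hhm, hhp, ← hE1]
    have : g + algebraMap ℂ A ((-(c + δ) : ℝ) : ℂ) + (-g + algebraMap ℂ A (((c - δ) : ℝ) : ℂ))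
        = algebraMap ℂ A ((-(2 * δ) : ℝ) : ℂ) := by
      have h3 : ((-(2 * δ) : ℝ) : ℂ) = ((-(c + δ) : ℝ) : ℂ) + (((c - δ) : ℝ) : ℂ) := by
        push_cast; ring
      rw [h3, map_add]; ring
    rw [this, hE2, Complex.ofReal_exp]
  refine App.glue hχ (Real.exp_nonneg _) (by rw [Real.exp_le_one_iff]; linarith) hmp ?_ ?_ ?_
  · intro φ
    rw [hnm, hnp, Real.exp_le_one_iff, Real.exp_le_one_iff]
    rcases le_total (φ g).re c with h | h
    · left; linarith
    · right; linarith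
  · refine h1 _ le_sup_left fun φ hφ => ?_
    have := hφ hm (Submonoid.mem_sup_right (Submonoid.mem_powers hm))
    rw [hnm, Real.exp_le_one_iff] at this
    linarith
  · refine h2 _ le_sup_left fun φ hφ => ?_
    have := hφ hp (Submonoid.mem_sup_right (Submonoid.mem_powers hp))
    rw [hnp, Real.exp_le_one_iff] at this
    linarith

lemma app_of_sep {χ : characterSpace ℂ A → ℂ} (hχ : ∀ φ, χ φ = 0 ∨ χ φ = 1) {η : ℝ} (hη : 0 < η)
    (G : Finset A) : ∀ S : Submonoid A,
      (∀ φ ∈ YY S, ∀ ψ ∈ YY S, χ φ = 0 → χ ψ = 1 → ∃ g ∈ G, η < |(φ g).re - (ψ g).re|) →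
      App χ S := by
  classical
  induction G using Finset.induction_on with
  | empty =>
    intro S hS
    by_cases h : ∃ ψ ∈ YY S, χ ψ = 1
    · obtain ⟨ψ, hψ, h1⟩ := h
      refine ⟨1, fun φ hφ => ?_⟩
      have : χ φ = 1 := by
        rcases hχ φ with h2 | h2
        · obtain ⟨g, hg, _⟩ := hS φ hφ ψ hψ h2 h1
          simp at hg
        · exact h2
      rw [this, map_one]; simp
    · push Not at h
      refine ⟨0, fun φ hφ => ?_⟩
      have : χ φ = 0 := by
        rcases hχ φ with h2 | h2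
        · exact h2
        · exact absurd h2 (h φ hφ)
      rw [this, map_zero]; simp
  | insert g G hgG ih =>
    have key : ∀ n : ℕ, ∀ S : Submonoid A,
        (∀ φ ∈ YY S, ∀ ψ ∈ YY S, χ φ = 0 → χ ψ = 1 →
          ∃ g' ∈ insert g G, η < |(φ g').re - (ψ g').re|) →
        (∃ c : ℝ, ∀ φ ∈ YY S, c ≤ (φ g).re ∧ (φ g).re ≤ c + η * (8 / 5) ^ n) → App χ S := by
      intro n
      induction n with
      | zero =>
        intro S hS hc
        obtain ⟨c, hc⟩ := hc
        refine ih S fun φ hφ ψ hψ h1 h2 => ?_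
        obtain ⟨g', hg', hlt⟩ := hS φ hφ ψ hψ h1 h2
        rcases Finset.mem_insert.1 hg' with h3 | h3
        · exfalso
          rw [h3] at hlt
          have h4 := hc φ hφ
          have h5 := hc ψ hψ
          rw [pow_zero, mul_one] at h4 h5
          have : |(φ g).re - (ψ g).re| ≤ η := by
            rw [abs_le]; constructor <;> linarith [h4.1, h4.2, h5.1, h5.2]
          linarith
        · exact ⟨g', h3, hlt⟩
      | succ n ihn =>
        intro S hS hc
        obtain ⟨c, hc⟩ := hc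
        set L := η * (8 / 5) ^ (n + 1) with hL
        have hL' : η * (8 / 5) ^ n = 5 / 8 * L := by rw [hL, pow_succ]; ring
        have hL0 : 0 ≤ L := by rw [hL]; positivity
        refine App.bisect hχ g (c + L / 2) (L / 8) (by linarith) ?_ ?_
        · intro T hT hT2
          refine ihn T (fun φ hφ ψ hψ => hS φ (YY_anti hT hφ) ψ (YY_anti hT hψ)) ⟨c, fun φ hφ => ?_⟩
          rw [hL']
          exact ⟨(hc φ (YY_anti hT hφ)).1, by linarith [hT2 φ hφ]⟩
        · intro T hT hT2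
          refine ihn T (fun φ hφ ψ hψ => hS φ (YY_anti hT hφ) ψ (YY_anti hT hψ))
            ⟨c + 3 / 8 * L, fun φ hφ => ?_⟩
          rw [hL']
          exact ⟨by linarith [hT2 φ hφ], by linarith [(hc φ (YY_anti hT hφ)).2]⟩
    intro S hS
    obtain ⟨n, hn⟩ := pow_unbounded_of_one_lt (2 * ‖g‖ / η) (by norm_num : (1 : ℝ) < 8 / 5)
    refine key n S hS ⟨-‖g‖, fun φ hφ => ?_⟩
    have h1 : |(φ g).re| ≤ ‖g‖ := (Complex.abs_re_le_norm _).trans (char_norm_le φ g)
    rw [div_lt_iff₀ hη] at hn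
    rw [abs_le] at h1
    exact ⟨h1.1, by linarith [h1.2]⟩

/-- A `0`-`1` valued function continuous on `YY S` has the approximation property. -/
theorem app_of_continuousOn {χ : characterSpace ℂ A → ℂ} (hχ : ∀ φ, χ φ = 0 ∨ χ φ = 1)
    {S : Submonoid A} (hcont : ContinuousOn χ (YY S)) : App χ S := by
  obtain ⟨G, η, hη, h⟩ := finite_sep hcont
  exact app_of_sep hχ hη G S h

end Pool.Agent.H27
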