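import Mathlib
import Pool.Agent.Lib.MP_9ef1f5_an_helper27.Shilov2

set_option autoImplicit false

/-!
The local maximum modulus principle for open sets missing a norming set.
-/

namespace Pool.Agent.H27

open WeakDual Filter Topology

universe u

variable {A : Type u} [NormedCommRing A] [NormedAlgebra ℂ A] [CompleteSpace A] [NormOneClass A]

omit [CompleteSpace A] [NormOneClass A] in
/-- Truncation: a sum `∑ a n * h ^ n` with `f * h = r` is multiplied by `f ^ q` and the terms with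
`n > q` are removed. -/
lemma Rep.trunc {h f : A} {r0 : ℝ} (hr0 : 0 < r0) (hfh : f * h = algebraMap ℂ A r0) (q : ℕ)
    (hle : ∀ φ : characterSpace ℂ A, ∀ a : A, ‖φ a‖ ≤ ‖a‖) {b : A} {r : ℝ}
    (hb : Rep (Submonoid.powers h) b r) :
    ∃ F : A, ∀ φ : characterSpace ℂ A, (‖φ f‖ ≤ r0 → ‖φ F‖ ≤ r * r0 ^ q) ∧
      (r0 ≤ ‖φ f‖ → ‖φ F - φ f ^ q * φ b‖ ≤ r * r0 ^ q) := by
  induction hb with
  | zero r hr =>
    refine ⟨0, fun φ => ⟨fun _ => ?_, fun _ => ?_⟩⟩
    · rw [map_zero, norm_zero]; positivity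
    · rw [map_zero, mul_zero, sub_zero, norm_zero]; positivity
  | add a s b r r' hs hb hr ih =>
    obtain ⟨F, hF⟩ := ih
    obtain ⟨n, hn⟩ := hs
    have hφfh : ∀ φ : characterSpace ℂ A, φ f * φ h = (r0 : ℂ) := by
      intro φ
      rw [← map_mul, hfh, AlgHomClass.commutes]; rfl
    have hrq : r' * r0 ^ q ≥ ‖a‖ * r0 ^ q + r * r0 ^ q := by
      rw [← add_mul]; gcongr
    rcases le_or_gt n q with hnq | hnq
    · obtain ⟨k, rfl⟩ := Nat.exists_eq_add_of_le hnq
      refine ⟨algebraMap ℂ A ((r0 : ℂ) ^ n) * a * f ^ k + F, fun φ => ⟨fun h1 => ?_, fun h1 => ?_⟩⟩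
      · refine le_trans ?_ hrq
        have h0 : φ (algebraMap ℂ A ((r0 : ℂ) ^ n) * a * f ^ k + F)
            = (r0 : ℂ) ^ n * φ a * φ f ^ k + φ F := by
          rw [map_add, map_mul, map_mul, AlgHomClass.commutes, map_pow φ]; rfl
        rw [h0]
        calc ‖(r0 : ℂ) ^ n * φ a * φ f ^ k + φ F‖
            ≤ ‖(r0 : ℂ) ^ n * φ a * φ f ^ k‖ + ‖φ F‖ := norm_add_le _ _
          _ = r0 ^ n * ‖φ a‖ * ‖φ f‖ ^ k + ‖φ F‖ := by
              rw [norm_mul, norm_mul, norm_pow]
              simp [abs_of_pos hr0]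
          _ ≤ r0 ^ n * ‖a‖ * r0 ^ k + r * r0 ^ (n + k) := by
              gcongr
              · exact hle φ a
              · exact (hF φ).1 h1
          _ = ‖a‖ * r0 ^ (n + k) + r * r0 ^ (n + k) := by rw [pow_add]; ring
      · have h2 : φ (algebraMap ℂ A ((r0 : ℂ) ^ n) * a * f ^ k + F) - φ f ^ (n + k) * φ (a * s + b)
            = φ F - φ f ^ (n + k) * φ b := by
          have h0 : φ (algebraMap ℂ A ((r0 : ℂ) ^ n) * a * f ^ k + F)
              = (r0 : ℂ) ^ n * φ a * φ f ^ k + φ F := by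
            rw [map_add, map_mul, map_mul, AlgHomClass.commutes, map_pow φ]; rfl
          have h00 : φ (a * s + b) = φ a * φ h ^ n + φ b := by
            rw [map_add, map_mul, ← hn]
            change φ a * φ (h ^ n) + φ b = _
            rw [map_pow]
          rw [h0, h00, ← hφfh φ]
          ring
        rw [h2]
        have := (hF φ).2 h1
        have h3 : 0 ≤ ‖a‖ * r0 ^ (n + k) := by positivity
        linarith
    · obtain ⟨k, rfl⟩ := Nat.exists_eq_add_of_lt hnq
      refine ⟨F, fun φ => ⟨fun h1 => ?_, fun h1 => ?_⟩⟩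
      · have := (hF φ).1 h1
        have h3 : 0 ≤ ‖a‖ * r0 ^ q := by positivity
        linarith
      · refine le_trans ?_ hrq
        have hfne : 0 < ‖φ f‖ := hr0.trans_le h1
        have hh1 : ‖φ h‖ ≤ 1 := by
          have h4 := congrArg norm (hφfh φ)
          rw [norm_mul, Complex.norm_real, Real.norm_eq_abs, abs_of_pos hr0] at h4
          by_contra hcon
          push Not at hcon
          nlinarith
        have h5 : ‖φ f ^ q * φ h ^ (q + k + 1)‖ ≤ r0 ^ q := by
          have : φ f ^ q * φ h ^ (q + k + 1) = (φ f * φ h) ^ q * φ h ^ (k + 1) := by ring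
          rw [this, hφfh, norm_mul, norm_pow, norm_pow, Complex.norm_real, Real.norm_eq_abs,
            abs_of_pos hr0]
          calc r0 ^ q * ‖φ h‖ ^ (k + 1) ≤ r0 ^ q * 1 := by
                gcongr
                exact pow_le_one₀ (norm_nonneg _) hh1
            _ = _ := mul_one _
        have h2 : φ F - φ f ^ q * φ (a * s + b)
            = (φ F - φ f ^ q * φ b) - φ a * (φ f ^ q * φ h ^ (q + k + 1)) := by
          rw [map_add, map_mul, ← hn]
          change φ F - φ f ^ q * (φ a * φ (h ^ (q + k + 1)) + φ b) = _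
          rw [map_pow]
          ring
        rw [h2]
        calc ‖(φ F - φ f ^ q * φ b) - φ a * (φ f ^ q * φ h ^ (q + k + 1))‖
            ≤ ‖φ F - φ f ^ q * φ b‖ + ‖φ a * (φ f ^ q * φ h ^ (q + k + 1))‖ := norm_sub_le _ _
          _ ≤ r * r0 ^ q + ‖a‖ * r0 ^ q := by
              rw [norm_mul]
              gcongr
              · exact (hF φ).2 h1
              · exact hle φ a
          _ = _ := by ring

/-- The core contradiction. -/
lemma local_max_core {K U V E : Set (characterSpace ℂ A)} (hU : IsOpen U)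
    (hV : IsOpen V) (hcov : Kᶜ = U ∪ V) (hdisj : Disjoint U V) (hE : E ⊆ U ∪ K)
    (hbd : ∀ a : A, ∀ M : ℝ, (∀ φ ∈ E, ‖φ a‖ ≤ M) → ∀ φ : characterSpace ℂ A, ‖φ a‖ ≤ M)
    {m : characterSpace ℂ A} (hm : m ∈ V) (a : A) (hma : m a = 1) (ρ : ℝ) (hρ : ρ < 1)
    (haK : ∀ φ ∈ K, ‖φ a‖ ≤ ρ) : False := by
  classical
  obtain ⟨X, hX1, hX2, hX3⟩ := exists_exp (A := A)
  obtain ⟨r, hr1, hr2⟩ := exists_between
    (show Real.exp (ρ - 1) < 1 by rw [Real.exp_lt_one_iff]; linarith)
  have hr0 : 0 < r := (Real.exp_pos _).trans hr1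
  set f : A := X (a - 1) with hf
  set h : A := algebraMap ℂ A r * X (-(a - 1)) with hh
  have hX0 : X 0 = 1 := by
    have := hX2 0
    rwa [map_zero, Complex.exp_zero, map_one] at this
  have hfh : f * h = algebraMap ℂ A r := by
    rw [hf, hh]
    calc X (a - 1) * (algebraMap ℂ A r * X (-(a - 1)))
        = algebraMap ℂ A r * (X (a - 1) * X (-(a - 1))) := by ring
      _ = _ := by rw [← hX1, add_neg_cancel, hX0, mul_one]
  have hnf : ∀ φ : characterSpace ℂ A, ‖φ f‖ = Real.exp ((φ a).re - 1) := by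
    intro φ
    rw [hf, hX3, Complex.norm_exp, map_sub, map_one, Complex.sub_re, Complex.one_re]
  have hφfh : ∀ φ : characterSpace ℂ A, ‖φ f‖ * ‖φ h‖ = r := by
    intro φ
    rw [← norm_mul, ← map_mul, hfh, AlgHomClass.commutes]
    simp [abs_of_pos hr0]
  have hYY : ∀ φ : characterSpace ℂ A, φ ∈ YY (Submonoid.powers h) ↔ r ≤ ‖φ f‖ := by
    intro φ
    have h1 := hφfh φ
    have h2 : 0 < ‖φ f‖ := by rw [hnf]; exact Real.exp_pos _
    constructor
    · intro h3
      have h4 := h3 h (Submonoid.mem_powers h)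
      nlinarith
    · rintro h3 s ⟨n, rfl⟩
      have h4 : ‖φ h‖ ≤ 1 := by
        by_contra hcon
        push Not at hcon
        nlinarith
      change ‖φ (h ^ n)‖ ≤ 1
      rw [map_pow, norm_pow]
      exact pow_le_one₀ (norm_nonneg _) h4
  have hKY : ∀ φ ∈ K, φ ∉ YY (Submonoid.powers h) := by
    intro φ hφ hφ2
    rw [hYY, hnf] at hφ2
    have h1 : (φ a).re ≤ ρ := (Complex.re_le_norm _).trans (haK φ hφ)
    have h2 : Real.exp ((φ a).re - 1) ≤ Real.exp (ρ - 1) := Real.exp_le_exp.2 (by linarith)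
    linarith
  set χ : characterSpace ℂ A → ℂ := fun φ => if φ ∈ V then 1 else 0 with hχdef
  have hχ : ∀ φ, χ φ = 0 ∨ χ φ = 1 := by
    intro φ
    by_cases h1 : φ ∈ V
    · right; simp [hχdef, h1]
    · left; simp [hχdef, h1]
  have hcont : ContinuousOn χ (YY (Submonoid.powers h)) := by
    intro φ hφ
    refine ContinuousAt.continuousWithinAt ?_
    have hφK : φ ∈ Kᶜ := fun h1 => hKY φ h1 hφ
    rw [hcov] at hφK
    rcases hφK with h1 | h1
    · have h2 : χ =ᶠ[𝓝 φ] fun _ => 0 := by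
        filter_upwards [hU.mem_nhds h1] with ψ hψ
        have : ψ ∉ V := fun h3 => (Set.disjoint_left.1 hdisj) hψ h3
        simp [hχdef, this]
      exact (continuousAt_const.congr h2.symm)
    · have h2 : χ =ᶠ[𝓝 φ] fun _ => 1 := by
        filter_upwards [hV.mem_nhds h1] with ψ hψ
        simp [hχdef, hψ]
      exact (continuousAt_const.congr h2.symm)
  obtain ⟨e, he, hΦe⟩ := (app_of_continuousOn hχ hcont).idem hχ
  set C : ℝ := ‖e‖ + 2 with hC
  have hCpos : 0 < C := by positivity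
  obtain ⟨q, hq⟩ := exists_pow_lt_of_lt_one (show (0 : ℝ) < 1 / (4 * C) by positivity) hr2
  have hq' : 4 * (C * r ^ q) < 1 := by
    rw [lt_div_iff₀ (by positivity)] at hq
    linarith
  set ε : ℝ := 1 / (4 * (1 + ‖f‖ ^ q)) with hε
  have hεpos : 0 < ε := by positivity
  have hε1 : (1 + ‖f‖ ^ q) * ε = 1 / 4 := by
    rw [hε]; field_simp
  have hε2 : ε ≤ 1 := by
    have : 0 ≤ ‖f‖ ^ q * ε := by positivity
    nlinarith
  obtain ⟨b, hb⟩ := exists_close e hεpos
  have hbS : pS (Submonoid.powers h) b < C := by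
    rw [← norm_jj]
    calc ‖jj _ b‖ = ‖(jj _ b - e) + e‖ := by rw [sub_add_cancel]
      _ ≤ ‖jj _ b - e‖ + ‖e‖ := norm_add_le _ _
      _ < C := by linarith
  obtain ⟨r', hr', hrep⟩ := exists_rep_lt hbS
  have hrep' := hrep.mono hr'.le
  obtain ⟨F, hF⟩ := hrep'.trunc hr0 hfh q (fun φ a => char_norm_le φ a)
  have hFE : ∀ φ ∈ E, ‖φ F‖ ≤ ‖f‖ ^ q * ε + C * r ^ q := by
    intro φ hφ
    rcases le_total ‖φ f‖ r with h1 | h1
    · have h2 := (hF φ).1 h1
      have : 0 ≤ ‖f‖ ^ q * ε := by positivity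
      linarith
    · have h2 := (hF φ).2 h1
      have hφY := (hYY φ).2 h1
      have hφV : φ ∉ V := by
        intro h3
        rcases hE hφ with h4 | h4
        · exact (Set.disjoint_left.1 hdisj) h4 h3
        · exact hKY φ h4 hφY
      have h3 := close_of_idem hΦe hb hφY
      have h4 : χ φ = 0 := by simp [hχdef, hφV]
      rw [h4, sub_zero] at h3
      calc ‖φ F‖ = ‖(φ F - φ f ^ q * φ b) + φ f ^ q * φ b‖ := by rw [sub_add_cancel]
        _ ≤ ‖φ F - φ f ^ q * φ b‖ + ‖φ f ^ q * φ b‖ := norm_add_le _ _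
        _ ≤ C * r ^ q + ‖f‖ ^ q * ε := by
            rw [norm_mul, norm_pow]
            gcongr
            exact char_norm_le φ f
        _ = _ := add_comm _ _
  have hFm := hbd F _ hFE m
  have hmf : ‖m f‖ = 1 := by rw [hnf, hma]; simp
  have h1 : r ≤ ‖m f‖ := by rw [hmf]; exact hr2.le
  have h2 := (hF m).2 h1
  have h3 := close_of_idem hΦe hb ((hYY m).2 h1)
  have h4 : χ m = 1 := by simp [hχdef, hm]
  rw [h4] at h3
  have h5 : 1 - ε ≤ ‖m b‖ := by
    have : ‖(1 : ℂ)‖ ≤ ‖m b‖ + ‖m b - 1‖ := by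
      calc ‖(1 : ℂ)‖ = ‖m b - (m b - 1)‖ := by ring_nf
        _ ≤ _ := norm_sub_le _ _
    rw [norm_one] at this
    linarith
  have h6 : ‖m f ^ q * m b‖ = ‖m b‖ := by rw [norm_mul, norm_pow, hmf, one_pow, one_mul]
  have h7 : ‖m f ^ q * m b‖ ≤ ‖m F‖ + ‖m F - m f ^ q * m b‖ := by
    calc ‖m f ^ q * m b‖ = ‖m F - (m F - m f ^ q * m b)‖ := by ring_nf
      _ ≤ _ := norm_sub_le _ _
  rw [h6] at h7
  nlinarith

/-- The local maximum principle. -/
theorem local_max {K U V E : Set (characterSpace ℂ A)} (hU : IsOpen U)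
    (hV : IsOpen V) (hcov : Kᶜ = U ∪ V) (hdisj : Disjoint U V) (hE : E ⊆ U ∪ K)
    (hbd : ∀ a : A, ∀ M : ℝ, (∀ φ ∈ E, ‖φ a‖ ≤ M) → ∀ φ : characterSpace ℂ A, ‖φ a‖ ≤ M)
    {m : characterSpace ℂ A} (hm : m ∈ V) (a : A) (M : ℝ) (hM : ∀ φ ∈ K, ‖φ a‖ ≤ M) :
    ‖m a‖ ≤ M := by
  by_contra hcon
  push Not at hcon
  rcases K.eq_empty_or_nonempty with hKe | ⟨k0, hk0⟩
  · refine local_max_core hU hV hcov hdisj hE hbd hm 1 (map_one m) 0 zero_lt_one ?_
    intro φ hφ
    rw [hKe] at hφ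
    exact absurd hφ (Set.notMem_empty φ)
  · have hM0 : 0 ≤ M := (norm_nonneg _).trans (hM k0 hk0)
    have hVK : V ∪ K = Uᶜ := by
      ext φ
      constructor
      · rintro (h | h)
        · exact fun h2 => (Set.disjoint_left.1 hdisj) h2 h
        · intro h2
          have : φ ∈ Kᶜ := by rw [hcov]; exact Or.inl h2
          exact this h
      · intro h
        by_cases h2 : φ ∈ K
        · exact Or.inr h2
        · have : φ ∈ U ∪ V := by rw [← hcov]; exact h2
          rcases this with h3 | h3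
          · exact absurd h3 h
          · exact Or.inl h3
    have hcl : IsCompact (V ∪ K) := by
      rw [hVK]; exact hU.isClosed_compl.isCompact
    obtain ⟨m1, hm1, hmax⟩ := hcl.exists_isMaxOn ⟨m, Or.inl hm⟩
      (continuous_char_apply a).norm.continuousOn
    have hMm1 : M < ‖m1 a‖ := hcon.trans_le (hmax (Or.inl hm))
    have hm1V : m1 ∈ V := by
      rcases hm1 with h | h
      · exact h
      · exact absurd (hM m1 h) (not_le.2 hMm1)
    have hpos : 0 < ‖m1 a‖ := hM0.trans_lt hMm1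
    have hne : m1 a ≠ 0 := norm_pos_iff.1 hpos
    refine local_max_core hU hV hcov hdisj hE hbd hm1V ((m1 a)⁻¹ • a) ?_ (M / ‖m1 a‖)
      (by rw [div_lt_one hpos]; exact hMm1) ?_
    · rw [map_smul, smul_eq_mul, inv_mul_cancel₀ hne]
    · intro φ hφ
      rw [map_smul, smul_eq_mul, norm_mul, norm_inv, inv_mul_eq_div]
      gcongr
      exact hM φ hφ

end Pool.Agent.H27
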