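import Mathlib
import Pool.Agent.Lib.MP_9ef1f5_an_helper27.Curve
import Pool.Agent.Lib.MP_9ef1f5_an_helper27.LocalMax

set_option autoImplicit false

/-!
The Banach algebra of bounded holomorphic functions on the surface, its characters and the
final connectedness statement.
-/

namespace Pool.Agent.H27

open Set Filter Topology Metric WeakDual
open scoped Manifold ContDiff BoundedContinuousFunction

variable (D : CoverData)

/-- The algebra of bounded holomorphic functions as a subalgebra of the bounded continuous functions. -/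
noncomputable def HA : Subalgebra ℂ (Surf D →ᵇ ℂ) where
  carrier := {f | MDifferentiable 𝓘(ℂ) 𝓘(ℂ) f}
  mul_mem' := by
    intro f g hf hg
    rw [mem_ofPred_eq, mdiff_iff] at *
    intro S
    exact (hf S).mul (hg S)
  add_mem' := by
    intro f g hf hg
    rw [mem_ofPred_eq, mdiff_iff] at *
    intro S
    exact (hf S).add (hg S)
  algebraMap_mem' := by
    intro c
    rw [mem_ofPred_eq, mdiff_iff]
    intro S
    exact differentiableOn_const c

lemma isClosed_HA : IsClosed ((HA D : Subalgebra ℂ (Surf D →ᵇ ℂ)) : Set (Surf D →ᵇ ℂ)) := by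
  refine IsSeqClosed.isClosed ?_
  intro F f hF hlim
  change MDifferentiable 𝓘(ℂ) 𝓘(ℂ) f
  rw [mdiff_iff]
  intro S
  have h1 : TendstoUniformly (fun n => ⇑(F n)) f atTop :=
    BoundedContinuousFunction.tendsto_iff_tendstoUniformly.1 hlim
  have h2 : TendstoUniformlyOn (fun n z => F n (S.inv z)) (fun z => f (S.inv z)) atTop S.U := by
    intro u hu
    filter_upwards [h1 u hu] with n hn z _
    exact hn _
  refine h2.tendstoLocallyUniformlyOn.differentiableOn ?_ S.isOpen_U
  filter_upwards with n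
  have h3 : MDifferentiable 𝓘(ℂ) 𝓘(ℂ) (F n) := hF n
  rw [mdiff_iff] at h3
  exact h3 S

/-- The Banach algebra type. -/
abbrev BA : Type := HA D

noncomputable instance : NormedCommRing (BA D) := inferInstanceAs (NormedCommRing (HA D))
noncomputable instance : NormedAlgebra ℂ (BA D) := inferInstanceAs (NormedAlgebra ℂ (HA D))
instance instCompl : CompleteSpace (BA D) := (isClosed_HA D).completeSpace_coe
instance instOne : NormOneClass (BA D) := ⟨by
  change ‖(1 : Surf D →ᵇ ℂ)‖ = 1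
  exact norm_one⟩

/-- The type used in the frozen statement. -/
abbrev HB : Type := {f : Surf D → ℂ // MDifferentiable 𝓘(ℂ) 𝓘(ℂ) f ∧ ∃ C : ℝ, ∀ x, ‖f x‖ ≤ C}

variable {D}

/-- Conversion. -/
noncomputable def toBA (f : HB D) : BA D :=
  ⟨BoundedContinuousFunction.ofNormedAddCommGroup f.1 f.2.1.continuous f.2.2.choose
    f.2.2.choose_spec, f.2.1⟩

/-- Conversion. -/
noncomputable def ofBA (a : BA D) : HB D := ⟨a.1, a.2, ‖a.1‖, fun x => a.1.norm_coe_le_norm x⟩

lemma ofBA_toBA (f : HB D) : ofBA (toBA f) = f := rfl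

lemma toBA_ofBA (a : BA D) : toBA (ofBA a) = a := rfl

variable (D) in
/-- The set of characters of the frozen statement. -/
def MM : Set (HB D → ℂ) := {φ |
  (∀ u : HB D, u.1 = (fun _ => (1 : ℂ)) → φ u = 1) ∧
  (∀ f g h : HB D, h.1 = f.1 + g.1 → φ h = φ f + φ g) ∧
  (∀ f g h : HB D, h.1 = f.1 * g.1 → φ h = φ f * φ g) ∧
  (∀ (c : ℂ) (f h : HB D), h.1 = c • f.1 → φ h = c * φ f)}

/-- From characters of the Banach algebra to the frozen form. -/
noncomputable def jM (Φ : characterSpace ℂ (BA D)) : HB D → ℂ := fun f => Φ (toBA f)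

lemma continuous_jM : Continuous (jM (D := D)) :=
  continuous_pi fun f => continuous_char_apply (toBA f)

lemma jM_mem (Φ : characterSpace ℂ (BA D)) : jM Φ ∈ MM D := by
  refine ⟨?_, ?_, ?_, ?_⟩
  · intro u hu
    have : toBA u = 1 := by
      apply Subtype.ext
      apply BoundedContinuousFunction.ext
      intro x
      exact congrFun hu x
    simp only [jM, this, map_one]
  · intro f g h hh
    have : toBA h = toBA f + toBA g := by
      apply Subtype.ext
      apply BoundedContinuousFunction.ext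
      intro x
      exact congrFun hh x
    simp only [jM, this, map_add]
  · intro f g h hh
    have : toBA h = toBA f * toBA g := by
      apply Subtype.ext
      apply BoundedContinuousFunction.ext
      intro x
      exact congrFun hh x
    simp only [jM, this, map_mul]
  · intro c f h hh
    have : toBA h = c • toBA f := by
      apply Subtype.ext
      apply BoundedContinuousFunction.ext
      intro x
      exact congrFun hh x
    simp only [jM, this, map_smul, smul_eq_mul]

lemma exists_of_mem_MM {φ : HB D → ℂ} (hφ : φ ∈ MM D) : ∃ Φ : characterSpace ℂ (BA D), jM Φ = φ := by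
  obtain ⟨h1, h2, h3, h4⟩ := hφ
  have hone : φ (ofBA 1) = 1 := h1 _ rfl
  have hmul : ∀ a b : BA D, φ (ofBA (a * b)) = φ (ofBA a) * φ (ofBA b) := fun a b => h3 _ _ _ rfl
  have hadd : ∀ a b : BA D, φ (ofBA (a + b)) = φ (ofBA a) + φ (ofBA b) := fun a b => h2 _ _ _ rfl
  have hsmul : ∀ (c : ℂ) (a : BA D), φ (ofBA (c • a)) = c * φ (ofBA a) := fun c a => h4 _ _ _ rfl
  have hzero : φ (ofBA 0) = 0 := by
    have := hadd 0 0
    rw [add_zero] at this
    simpa using this
  let F : BA D →ₐ[ℂ] ℂ :=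
    { toFun := fun a => φ (ofBA a)
      map_one' := hone
      map_mul' := hmul
      map_zero' := hzero
      map_add' := hadd
      commutes' := fun c => by
        have : algebraMap ℂ (BA D) c = c • 1 := Algebra.algebraMap_eq_smul_one c
        rw [this, hsmul, hone, mul_one]
        rfl }
  refine ⟨CharacterSpace.equivAlgHom.symm F, ?_⟩
  funext f
  simp only [jM]
  rw [CharacterSpace.equivAlgHom_symm_coe]
  rfl

/-- Point evaluations. -/
noncomputable def ev (x : Surf D) : characterSpace ℂ (BA D) :=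
  CharacterSpace.equivAlgHom.symm
    { toFun := fun a => a.1 x
      map_one' := rfl
      map_mul' := fun _ _ => rfl
      map_zero' := rfl
      map_add' := fun _ _ => rfl
      commutes' := fun _ => rfl }

lemma ev_apply (x : Surf D) (a : BA D) : ev x a = a.1 x := by
  unfold ev
  rw [CharacterSpace.equivAlgHom_symm_coe]
  rfl

lemma continuous_ev : Continuous (ev (D := D)) := by
  refine continuous_induced_rng.2 ?_
  refine WeakDual.continuous_of_continuous_eval fun a => ?_
  have : (fun x : Surf D => (Subtype.val ∘ ev (D := D)) x a) = fun x => a.1 x := by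
    funext x; exact ev_apply x a
  rw [this]
  exact a.1.continuous

lemma jM_ev (x : Surf D) : jM (ev x) = fun f => f.1 x := by
  funext f
  exact ev_apply x (toBA f)

/-- The coordinate function. -/
noncomputable def ZZ : BA D := toBA ⟨fun x => x.z, mdiff_z, ⟨1, norm_z_le⟩⟩

lemma ev_ZZ (x : Surf D) : ev x ZZ = x.z := ev_apply x _

variable (D) in
/-- The evaluations on the curve. -/
def KK : Set (characterSpace ℂ (BA D)) := range fun t : Circle => ev (gam D t)

lemma gam_z (t : Circle) : (gam D t).z = (t : ℂ) / 3 := bb_z (sphere_sub (circ_mem t))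

/-- A character dominated by the curve is evaluation at a point of the closed base disc. -/
lemma eq_ev_of_dominated (Φ : characterSpace ℂ (BA D))
    (h : ∀ (a : BA D) (M : ℝ), (∀ φ ∈ KK D, ‖φ a‖ ≤ M) → ‖Φ a‖ ≤ M) :
    ∃ z ∈ closedBall (0 : ℂ) (1 / 3), ∀ a : BA D, Φ a = a.1 (bb D z) := by
  set ζ : ℂ := Φ ZZ with hζ
  have hζn : ‖ζ‖ ≤ 1 / 3 := by
    refine h ZZ _ ?_
    rintro _ ⟨t, rfl⟩
    simp only [ev_ZZ, gam_z]
    rw [norm_div, Circle.norm_coe]; simp
  refine ⟨ζ, by rw [mem_closedBall, dist_zero_right]; exact hζn, fun a => ?_⟩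
  have hga : DifferentiableOn ℂ (fun z => a.1 (bb D z)) (ball (0 : ℂ) (1 / 2)) := by
    have h3 : MDifferentiable 𝓘(ℂ) 𝓘(ℂ) a.1 := a.2
    rw [mdiff_iff] at h3
    exact h3 (bsec D)
  have hps := (hga.mono (closedBall_subset_ball
    (show ((5 / 12 : NNReal) : ℝ) < 1 / 2 by norm_num))).hasFPowerSeriesOnBall
    (show (0 : NNReal) < 5 / 12 by norm_num)
  set p := cauchyPowerSeries (fun z => a.1 (bb D z)) 0 ((5 / 12 : NNReal) : ℝ) with hp
  have hunif := hps.tendstoUniformlyOn (r' := (3 / 8 : NNReal))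
    (by rw [ENNReal.coe_lt_coe]; norm_num [← NNReal.coe_lt_coe])
  rw [Metric.tendstoUniformlyOn_iff] at hunif
  let T : ℕ → BA D := fun n => ∑ k ∈ Finset.range n, (p.coeff k) • (ZZ : BA D) ^ k
  have hT : ∀ (Ψ : characterSpace ℂ (BA D)) (n : ℕ), Ψ (T n) = p.partialSum n (Ψ ZZ) := by
    intro Ψ n
    simp only [T, FormalMultilinearSeries.partialSum]
    rw [map_sum]
    refine Finset.sum_congr rfl fun k _ => ?_
    rw [FormalMultilinearSeries.apply_eq_pow_smul_coeff, map_smul, map_pow, smul_eq_mul,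
      smul_eq_mul, mul_comm]
  have hsmall : ∀ z : ℂ, ‖z‖ ≤ 1 / 3 → z ∈ ball (0 : ℂ) ((3 / 8 : NNReal) : ℝ) := by
    intro z hz
    rw [mem_ball, dist_zero_right]
    refine lt_of_le_of_lt hz ?_
    norm_num
  have hfin : ∀ ε > 0, ‖Φ a - a.1 (bb D ζ)‖ ≤ 2 * ε := by
    intro ε hε
    obtain ⟨n, hn⟩ := (hunif ε hε).exists
    simp only [zero_add] at hn
    have h1 : ‖Φ (a - T n)‖ ≤ ε := by
      refine h _ _ ?_
      rintro _ ⟨t, rfl⟩
      simp only
      rw [map_sub, hT, ev_apply, ev_ZZ, gam_z, ← dist_eq_norm]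
      have h2 := hn ((t : ℂ) / 3) (hsmall _ (by
        have := circ_mem t
        rw [mem_sphere, dist_zero_right] at this
        exact this.le))
      exact h2.le
    have h3 := hn ζ (hsmall ζ hζn)
    rw [dist_eq_norm] at h3
    rw [map_sub, hT, ← hζ] at h1
    calc ‖Φ a - a.1 (bb D ζ)‖
        = ‖(Φ a - p.partialSum n ζ) - (a.1 (bb D ζ) - p.partialSum n ζ)‖ := by ring_nf
      _ ≤ ‖Φ a - p.partialSum n ζ‖ + ‖a.1 (bb D ζ) - p.partialSum n ζ‖ := norm_sub_le _ _
      _ ≤ 2 * ε := by linarith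
  have h0 : ‖Φ a - a.1 (bb D ζ)‖ ≤ 0 := by
    refine le_of_forall_pos_le_add fun ε hε => ?_
    have := hfin (ε / 2) (by linarith)
    linarith
  exact sub_eq_zero.1 (norm_le_zero_iff.1 h0)

variable (D) in
/-- The set of point evaluations on the curve, as in the frozen statement. -/
def KM : Set (HB D → ℂ) := {φ | ∃ t : Circle, ∀ f : HB D, φ f = f.1 (gam D t)}

lemma jM_mem_KM_iff (Φ : characterSpace ℂ (BA D)) : jM Φ ∈ KM D ↔ Φ ∈ KK D := by
  constructor
  · rintro ⟨t, ht⟩
    refine ⟨t, ?_⟩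
    apply CharacterSpace.ext
    intro a
    have := ht (ofBA a)
    rw [ev_apply]
    exact this.symm
  · rintro ⟨t, rfl⟩
    exact ⟨t, fun f => by rw [jM_ev]⟩

lemma tendsto_qk : Tendsto (fun k => jM (ev (qk D k))) atTop (𝓝 (jM (ev (bb D 0)))) := by
  rw [tendsto_pi_nhds]
  intro f
  simp only [jM_ev]
  obtain ⟨C, hC⟩ := f.2.2
  rw [tendsto_iff_norm_sub_tendsto_zero]
  have h1 : Tendsto (fun k : ℕ => 2 * C * (1 / 2 : ℝ) ^ k) atTop (𝓝 0) := by
    have := (tendsto_pow_atTop_nhds_zero_of_lt_one (by norm_num : (0 : ℝ) ≤ 1 / 2)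
      (by norm_num)).const_mul (2 * C)
    simpa using this
  refine squeeze_zero (fun _ => norm_nonneg _) (fun k => ?_) h1
  rw [norm_sub_rev]
  exact main_est f.2.1 hC k

lemma ev_notMem_KK {x : Surf D} (hx : x ∉ range (gam D)) : ev x ∉ KK D := by
  rintro ⟨t, ht⟩
  apply hx
  refine ⟨t, ?_⟩
  by_contra hne
  obtain ⟨f, hf1, hf2, hf3⟩ := separates (gam D t) x hne
  apply hf3
  have h1 := congrArg (fun Φ : characterSpace ℂ (BA D) => Φ (toBA ⟨f, hf1, hf2⟩)) ht
  simp only [ev_apply] at h1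
  exact h1

/-- One side of the separation contains everything. -/
lemma side {u v : Set (HB D → ℂ)} (hu : IsOpen u) (hv : IsOpen v)
    (hcov : MM D \ KM D ⊆ u ∪ v) (hdisj : (MM D \ KM D) ∩ (u ∩ v) = ∅)
    (h0 : jM (ev (bb D 0)) ∈ u) : MM D \ KM D ⊆ u := by
  have hmem : ∀ x : Surf D, x ∈ R1 D ∪ R2 D → jM (ev x) ∈ MM D \ KM D := by
    intro x hx
    refine ⟨jM_mem _, ?_⟩
    rw [jM_mem_KM_iff]
    apply ev_notMem_KK
    rw [← compl_range_gam] at hx
    exact hx
  have hcj : Continuous (fun x : Surf D => jM (ev x)) := continuous_jM.comp continuous_ev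
  have hpiece : ∀ R : Set (Surf D), IsPreconnected R → R ⊆ R1 D ∪ R2 D →
      (∃ x ∈ R, jM (ev x) ∈ u) → ∀ x ∈ R, jM (ev x) ∈ u := by
    intro R hR hRs ⟨x0, hx0, hx0u⟩
    have h1 := hR.image _ hcj.continuousOn
    have h2 : (fun x : Surf D => jM (ev x)) '' R ⊆ MM D \ KM D := by
      rintro _ ⟨x, hx, rfl⟩; exact hmem x (hRs hx)
    rcases isPreconnected_iff_subset_of_disjoint.1 h1 u v hu hv (h2.trans hcov)
      (eq_empty_of_subset_empty (by rw [← hdisj]; exact inter_subset_inter_left _ h2)) with h3 | h3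
    · intro x hx; exact h3 ⟨x, hx, rfl⟩
    · exfalso
      have : jM (ev x0) ∈ (MM D \ KM D) ∩ (u ∩ v) :=
        ⟨hmem x0 (hRs hx0), hx0u, h3 ⟨x0, hx0, rfl⟩⟩
      rw [hdisj] at this
      exact this
  have hR1 := hpiece (R1 D) isPreconnected_R1 subset_union_left ⟨_, base_mem_R1, h0⟩
  obtain ⟨k, hk⟩ := (tendsto_qk.eventually (hu.mem_nhds h0)).exists
  have hR2 := hpiece (R2 D) isPreconnected_R2 subset_union_right ⟨_, qk_mem_R2 k, hk⟩
  have hall : ∀ x : Surf D, x ∉ range (gam D) → jM (ev x) ∈ u := by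
    intro x hx
    have : x ∈ R1 D ∪ R2 D := by rw [← compl_range_gam]; exact hx
    rcases this with h | h
    · exact hR1 x h
    · exact hR2 x h
  intro m hm
  by_contra hmu
  have hmv : m ∈ v := (hcov hm).resolve_left hmu
  obtain ⟨Φ, rfl⟩ := exists_of_mem_MM hm.1
  have hΦK : Φ ∉ KK D := fun h => hm.2 ((jM_mem_KM_iff Φ).2 h)
  have hKcl : IsClosed (KK D) :=
    (isCompact_range (continuous_ev.comp continuous_gam)).isClosed
  let U : Set (characterSpace ℂ (BA D)) := jM ⁻¹' u ∩ (KK D)ᶜ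
  let V : Set (characterSpace ℂ (BA D)) := jM ⁻¹' v ∩ (KK D)ᶜ
  have hU : IsOpen U := (hu.preimage continuous_jM).inter hKcl.isOpen_compl
  have hV : IsOpen V := (hv.preimage continuous_jM).inter hKcl.isOpen_compl
  have hmemM : ∀ Ψ : characterSpace ℂ (BA D), Ψ ∉ KK D → jM Ψ ∈ MM D \ KM D := fun Ψ h =>
    ⟨jM_mem Ψ, fun h2 => h ((jM_mem_KM_iff Ψ).1 h2)⟩
  have hcov' : (KK D)ᶜ = U ∪ V := by
    ext Ψ
    constructor
    · intro h
      rcases hcov (hmemM Ψ h) with h2 | h2
      · exact Or.inl ⟨h2, h⟩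
      · exact Or.inr ⟨h2, h⟩
    · rintro (h | h)
      · exact h.2
      · exact h.2
  have hdisj' : Disjoint U V := by
    rw [disjoint_left]
    intro Ψ h1 h2
    have : jM Ψ ∈ (MM D \ KM D) ∩ (u ∩ v) := ⟨hmemM Ψ h1.2, h1.1, h2.1⟩
    rw [hdisj] at this
    exact this
  have hE : range (ev (D := D)) ⊆ U ∪ KK D := by
    rintro _ ⟨x, rfl⟩
    by_cases hx : x ∈ range (gam D)
    · obtain ⟨t, rfl⟩ := hx
      exact Or.inr ⟨t, rfl⟩
    · exact Or.inl ⟨hall x hx, ev_notMem_KK hx⟩
  have hbd : ∀ a : BA D, ∀ M : ℝ, (∀ φ ∈ range (ev (D := D)), ‖φ a‖ ≤ M) →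
      ∀ φ : characterSpace ℂ (BA D), ‖φ a‖ ≤ M := by
    intro a M hM φ
    refine (char_norm_le φ a).trans ?_
    have hM' : ∀ x : Surf D, ‖a.1 x‖ ≤ M := fun x => by
      have := hM (ev x) ⟨x, rfl⟩
      rwa [ev_apply] at this
    exact (BoundedContinuousFunction.norm_le ((norm_nonneg _).trans (hM' (bpt D)))).2 hM'
  have hdom : ∀ (a : BA D) (M : ℝ), (∀ φ ∈ KK D, ‖φ a‖ ≤ M) → ‖Φ a‖ ≤ M := fun a M hM =>
    local_max hU hV hcov' hdisj' hE hbd (m := Φ) ⟨hmv, hΦK⟩ a M hM
  obtain ⟨z, hz, hΦz⟩ := eq_ev_of_dominated Φ hdom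
  have hΦe : Φ = ev (bb D z) := CharacterSpace.ext fun a => by rw [hΦz, ev_apply]
  apply hmu
  rw [hΦe]
  apply hall
  intro hx
  obtain ⟨t, ht⟩ := hx
  apply hΦK
  rw [hΦe, ← ht]
  exact ⟨t, rfl⟩

theorem isPreconnected_final : IsPreconnected (MM D \ KM D) := by
  rw [isPreconnected_iff_subset_of_disjoint]
  intro u v hu hv hcov hdisj
  have h0 : jM (ev (bb D 0)) ∈ MM D \ KM D := by
    refine ⟨jM_mem _, ?_⟩
    rw [jM_mem_KM_iff]
    apply ev_notMem_KK
    have h1 : bb D 0 ∈ (range (gam D))ᶜ := by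
      rw [compl_range_gam]; exact Or.inl base_mem_R1
    exact h1
  rcases hcov h0 with h1 | h1
  · left
    exact side hu hv hcov hdisj h1
  · right
    refine side hv hu (by rwa [union_comm]) (by rwa [inter_comm v u]) h1

end Pool.Agent.H27
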